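import Mathlib

/-!
# Oscillation in a one-dimensional well

`G` is smooth near `[r1, r2]`, positive inside, zero at both ends with nonzero slopes.
We build the periodic solution of `r' ^ 2 = G r`, `r'' = G'(r) / 2`.
-/

namespace SGR

open Set MeasureTheory Real Filter Topology

/-- The data of a simple well. -/
structure Well (G : ℝ → ℝ) (r1 r2 : ℝ) : Prop where
  lt : r1 < r2
  smooth : ∀ x ∈ Icc r1 r2, ContDiffAt ℝ (⊤ : ℕ∞) G x
  left : G r1 = 0
  right : G r2 = 0
  pos : ∀ x ∈ Ioo r1 r2, 0 < G x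
  dleft : 0 < deriv G r1
  dright : deriv G r2 < 0

/-- The regularised quotient. -/
noncomputable def wq (G : ℝ → ℝ) (r1 r2 : ℝ) (x : ℝ) : ℝ := - dslope (dslope G r1) r2 x

section
variable {G : ℝ → ℝ} {r1 r2 : ℝ}

lemma Well.eq_mul (h : Well G r1 r2) (x : ℝ) : G x = (x - r1) * (r2 - x) * wq G r1 r2 x := by
  have h1 := sub_smul_dslope G r1 x
  have h2 := sub_smul_dslope (dslope G r1) r2 x
  have h3 : dslope G r1 r2 = 0 := by
    rw [dslope_of_ne _ h.lt.ne', slope_def_field, h.left, h.right]; simp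
  rw [h3, sub_zero, smul_eq_mul] at h2
  rw [h.left, sub_zero, smul_eq_mul] at h1
  rw [wq, ← h1, ← h2]; ring

lemma Well.diffAt (h : Well G r1 r2) {x : ℝ} (hx : x ∈ Icc r1 r2) : DifferentiableAt ℝ G x :=
  (h.smooth x hx).differentiableAt (by simp)

lemma Well.wq_continuousAt (h : Well G r1 r2) {x : ℝ} (hx : x ∈ Icc r1 r2) :
    ContinuousAt (wq G r1 r2) x := by
  have hc1 : ContinuousAt (dslope G r1) x := by
    by_cases hx1 : x = r1
    · subst hx1
      exact continuousAt_dslope_same.2 (h.diffAt hx)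
    · exact (continuousAt_dslope_of_ne hx1).2 (h.diffAt hx).continuousAt
  unfold wq
  apply ContinuousAt.neg
  by_cases hx2 : x = r2
  · subst hx2
    rw [continuousAt_dslope_same]
    exact (differentiableAt_dslope_of_ne h.lt.ne').2 (h.diffAt hx)
  · exact (continuousAt_dslope_of_ne hx2).2 hc1

lemma Well.wq_pos (h : Well G r1 r2) {x : ℝ} (hx : x ∈ Icc r1 r2) : 0 < wq G r1 r2 x := by
  have hlt := h.lt
  rcases eq_or_lt_of_le hx.1 with h1 | h1
  · subst h1
    have h3 : dslope G r1 r2 = 0 := by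
      rw [dslope_of_ne _ h.lt.ne', slope_def_field, h.left, h.right]; simp
    have : wq G r1 r2 r1 = deriv G r1 / (r2 - r1) := by
      rw [wq, dslope_of_ne _ h.lt.ne, slope_def_field, dslope_same, h3]
      have : r1 - r2 ≠ 0 := by linarith
      have h5 : r2 - r1 ≠ 0 := by linarith
      field_simp
      ring
    rw [this]
    exact div_pos h.dleft (by linarith)
  rcases eq_or_lt_of_le hx.2 with h2 | h2
  · subst h2
    have hG := (h.diffAt hx).hasDerivAt
    have hne : x - r1 ≠ 0 := by linarith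
    have hd : HasDerivAt (dslope G r1) (deriv G x / (x - r1)) x := by
      have e1 : HasDerivAt (fun y => G y / (y - r1))
          ((deriv G x * (x - r1) - G x * 1) / (x - r1) ^ 2) x := by
        exact hG.div ((hasDerivAt_id x).sub_const r1) hne
      rw [h.right] at e1
      have e2 : (deriv G x * (x - r1) - 0 * 1) / (x - r1) ^ 2 = deriv G x / (x - r1) := by
        field_simp; ring
      rw [e2] at e1
      refine e1.congr_of_eventuallyEq ?_
      filter_upwards [isOpen_ne.mem_nhds (ne_of_gt h1)] with y hy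
      rw [dslope_of_ne _ hy, slope_def_field, h.left, sub_zero]
    have : wq G r1 x x = - (deriv G x / (x - r1)) := by
      rw [wq, dslope_same, hd.deriv]
    rw [this]
    have := h.dright
    have h5 : deriv G x / (x - r1) < 0 := div_neg_of_neg_of_pos h.dright (by linarith)
    linarith
  · have h4 := h.eq_mul x
    have h5 := h.pos x ⟨h1, h2⟩
    rw [h4] at h5
    have h6 : 0 < (x - r1) * (r2 - x) := mul_pos (by linarith) (by linarith)
    exact (mul_pos_iff_of_pos_left h6).1 h5

/-- The sine parametrisation of the well. -/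
noncomputable def rho (r1 r2 : ℝ) (φ : ℝ) : ℝ := (r1 + r2) / 2 + (r2 - r1) / 2 * sin φ

/-- The speed of the phase. -/
noncomputable def wQ (G : ℝ → ℝ) (r1 r2 : ℝ) (φ : ℝ) : ℝ := √(wq G r1 r2 (rho r1 r2 φ))

lemma rho_mem (hlt : r1 < r2) (φ : ℝ) : rho r1 r2 φ ∈ Icc r1 r2 := by
  have h1 := neg_one_le_sin φ
  have h2 := sin_le_one φ
  unfold rho
  constructor <;> nlinarith

lemma rho_mem_Ioo (hlt : r1 < r2) {φ : ℝ} (h : cos φ ≠ 0) : rho r1 r2 φ ∈ Ioo r1 r2 := by
  have h3 : 0 < cos φ ^ 2 := by positivity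
  have h4 := sin_sq_add_cos_sq φ
  have h1 : -1 < sin φ := by nlinarith [neg_one_le_sin φ, sin_le_one φ]
  have h2 : sin φ < 1 := by nlinarith [neg_one_le_sin φ, sin_le_one φ]
  unfold rho
  constructor <;> nlinarith

lemma rho_continuous : Continuous (rho r1 r2) := by unfold rho; fun_prop

lemma rho_hasDerivAt (φ : ℝ) : HasDerivAt (rho r1 r2) ((r2 - r1) / 2 * cos φ) φ := by
  unfold rho
  exact ((hasDerivAt_sin φ).const_mul _).const_add _

lemma rho_add_two_pi (φ : ℝ) : rho r1 r2 (φ + 2 * π) = rho r1 r2 φ := by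
  unfold rho; rw [sin_add_two_pi]

lemma Well.wQ_pos (h : Well G r1 r2) (φ : ℝ) : 0 < wQ G r1 r2 φ :=
  Real.sqrt_pos.2 (h.wq_pos (rho_mem h.lt φ))

lemma Well.wQ_continuous (h : Well G r1 r2) : Continuous (wQ G r1 r2) := by
  unfold wQ
  refine Real.continuous_sqrt.comp ?_
  rw [continuous_iff_continuousAt]
  intro φ
  exact ContinuousAt.comp (g := wq G r1 r2) (h.wq_continuousAt (rho_mem h.lt φ))
    rho_continuous.continuousAt

lemma wQ_add_two_pi (φ : ℝ) : wQ G r1 r2 (φ + 2 * π) = wQ G r1 r2 φ := by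
  unfold wQ; rw [rho_add_two_pi]

lemma Well.G_rho (h : Well G r1 r2) (φ : ℝ) :
    G (rho r1 r2 φ) = ((r2 - r1) / 2 * cos φ * wQ G r1 r2 φ) ^ 2 := by
  rw [h.eq_mul, wQ, mul_pow, Real.sq_sqrt (h.wq_pos (rho_mem h.lt φ)).le]
  have h4 := sin_sq_add_cos_sq φ
  have : (rho r1 r2 φ - r1) * (r2 - rho r1 r2 φ) = ((r2 - r1) / 2 * cos φ) ^ 2 := by
    unfold rho
    have : cos φ ^ 2 = 1 - sin φ ^ 2 := by linarith
    rw [mul_pow, this]; ring
  rw [this]

/-- The time as a function of the phase. -/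
noncomputable def tau (G : ℝ → ℝ) (r1 r2 : ℝ) (φ : ℝ) : ℝ := ∫ s in (0 : ℝ)..φ, 1 / wQ G r1 r2 s

/-- The period. -/
noncomputable def per (G : ℝ → ℝ) (r1 r2 : ℝ) : ℝ := ∫ s in (0 : ℝ)..(2 * π), 1 / wQ G r1 r2 s

lemma Well.inv_continuous (h : Well G r1 r2) : Continuous (fun s => 1 / wQ G r1 r2 s) := by
  refine Continuous.div continuous_const h.wQ_continuous ?_
  intro x; exact (h.wQ_pos x).ne'

lemma Well.tau_hasDerivAt (h : Well G r1 r2) (φ : ℝ) :
    HasDerivAt (tau G r1 r2) (1 / wQ G r1 r2 φ) φ :=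
  (h.inv_continuous.integral_hasStrictDerivAt 0 φ).hasDerivAt

lemma inv_periodic : Function.Periodic (fun s => 1 / wQ G r1 r2 s) (2 * π) := by
  intro s; simp only [wQ_add_two_pi]

lemma Well.per_pos (h : Well G r1 r2) : 0 < per G r1 r2 := by
  unfold per
  apply intervalIntegral.intervalIntegral_pos_of_pos (h.inv_continuous.intervalIntegrable _ _)
  · intro x; exact one_div_pos.2 (h.wQ_pos x)
  · positivity

lemma Well.tau_add (h : Well G r1 r2) (φ : ℝ) :
    tau G r1 r2 (φ + 2 * π) = tau G r1 r2 φ + per G r1 r2 := by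
  unfold tau per
  rw [← intervalIntegral.integral_add_adjacent_intervals
    (h.inv_continuous.intervalIntegrable 0 φ) (h.inv_continuous.intervalIntegrable φ _)]
  congr 1
  have := (inv_periodic (G := G) (r1 := r1) (r2 := r2)).intervalIntegral_add_eq φ 0
  rw [zero_add] at this
  exact this

lemma Well.tau_strictMono (h : Well G r1 r2) : StrictMono (tau G r1 r2) := by
  apply strictMono_of_deriv_pos
  intro x
  rw [(h.tau_hasDerivAt x).deriv]
  exact one_div_pos.2 (h.wQ_pos x)

lemma Well.tau_continuous (h : Well G r1 r2) : Continuous (tau G r1 r2) :=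
  continuous_iff_continuousAt.2 fun x => (h.tau_hasDerivAt x).continuousAt

lemma Well.tau_surj (h : Well G r1 r2) : Function.Surjective (tau G r1 r2) := by
  have hp := h.per_pos
  have h2 : (0 : ℝ) < 2 * π := by positivity
  exact h.tau_continuous.surjective
    ((inv_periodic (G := G) (r1 := r1) (r2 := r2)).tendsto_atTop_intervalIntegral_of_pos hp h2)
    ((inv_periodic (G := G) (r1 := r1) (r2 := r2)).tendsto_atBot_intervalIntegral_of_pos hp h2)

/-- The phase as a function of time. -/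
noncomputable def Well.phase (h : Well G r1 r2) (t : ℝ) : ℝ :=
  (h.tau_strictMono.orderIsoOfSurjective _ h.tau_surj).symm t

lemma Well.tau_phase (h : Well G r1 r2) (t : ℝ) : tau G r1 r2 (h.phase t) = t :=
  (h.tau_strictMono.orderIsoOfSurjective _ h.tau_surj).apply_symm_apply t

lemma Well.phase_tau (h : Well G r1 r2) (φ : ℝ) : h.phase (tau G r1 r2 φ) = φ :=
  (h.tau_strictMono.orderIsoOfSurjective _ h.tau_surj).symm_apply_apply φ

lemma Well.phase_continuous (h : Well G r1 r2) : Continuous h.phase :=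
  (h.tau_strictMono.orderIsoOfSurjective _ h.tau_surj).symm.continuous

lemma Well.phase_hasDerivAt (h : Well G r1 r2) (t : ℝ) :
    HasDerivAt h.phase (wQ G r1 r2 (h.phase t)) t := by
  have h1 := h.tau_hasDerivAt (h.phase t)
  have h2 := h1.of_local_left_inverse (h.phase_continuous.continuousAt)
    (one_div_pos.2 (h.wQ_pos _)).ne' (Eventually.of_forall fun y => h.tau_phase y)
  simpa using h2

lemma Well.phase_add (h : Well G r1 r2) (t : ℝ) :
    h.phase (t + per G r1 r2) = h.phase t + 2 * π := by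
  apply h.tau_strictMono.injective
  rw [h.tau_phase, h.tau_add, h.tau_phase]

lemma Well.phase_injective (h : Well G r1 r2) : Function.Injective h.phase :=
  (h.tau_strictMono.orderIsoOfSurjective _ h.tau_surj).symm.injective

/-- The oscillating solution. -/
noncomputable def Well.sol (h : Well G r1 r2) (t : ℝ) : ℝ := rho r1 r2 (h.phase t)

/-- Its velocity. -/
noncomputable def Well.vel (h : Well G r1 r2) (t : ℝ) : ℝ :=
  (r2 - r1) / 2 * cos (h.phase t) * wQ G r1 r2 (h.phase t)

lemma Well.sol_mem (h : Well G r1 r2) (t : ℝ) : h.sol t ∈ Icc r1 r2 := rho_mem h.lt _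

lemma Well.sol_hasDerivAt (h : Well G r1 r2) (t : ℝ) : HasDerivAt h.sol (h.vel t) t :=
  (rho_hasDerivAt (h.phase t)).comp t (h.phase_hasDerivAt t)

lemma Well.vel_sq (h : Well G r1 r2) (t : ℝ) : h.vel t ^ 2 = G (h.sol t) := (h.G_rho _).symm

lemma Well.sol_continuous (h : Well G r1 r2) : Continuous h.sol :=
  rho_continuous.comp h.phase_continuous

lemma Well.vel_continuous (h : Well G r1 r2) : Continuous h.vel := by
  unfold Well.vel
  exact (continuous_const.mul (continuous_cos.comp h.phase_continuous)).mul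
    (h.wQ_continuous.comp h.phase_continuous)

lemma Well.sol_periodic (h : Well G r1 r2) (t : ℝ) : h.sol (t + per G r1 r2) = h.sol t := by
  unfold Well.sol; rw [h.phase_add, rho_add_two_pi]

lemma Well.deriv_contDiffAt (h : Well G r1 r2) {x : ℝ} (hx : x ∈ Icc r1 r2) :
    ContDiffAt ℝ (⊤ : ℕ∞) (deriv G) x :=
  (h.smooth x hx).derivWithin (by simp)

lemma Well.deriv_sol_continuous (h : Well G r1 r2) : Continuous (fun t => deriv G (h.sol t)) := by
  rw [continuous_iff_continuousAt]
  intro t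
  exact ContinuousAt.comp (g := deriv G) (h.deriv_contDiffAt (h.sol_mem t)).continuousAt
    h.sol_continuous.continuousAt

lemma Well.vel_hasDerivAt_of_ne (h : Well G r1 r2) {t : ℝ} (hc : cos (h.phase t) ≠ 0) :
    HasDerivAt h.vel (deriv G (h.sol t) / 2) t := by
  have hlt := h.lt
  have hG0 : 0 < G (h.sol t) := h.pos _ (rho_mem_Ioo h.lt hc)
  have hG : HasDerivAt (fun s => G (h.sol s)) (deriv G (h.sol t) * h.vel t) t :=
    (h.diffAt (h.sol_mem t)).hasDerivAt.comp t (h.sol_hasDerivAt t)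
  have hcc : ContinuousAt (fun s => cos (h.phase s)) t :=
    (continuous_cos.comp h.phase_continuous).continuousAt
  have hs := hG.sqrt hG0.ne'
  rcases lt_or_gt_of_ne hc with hc | hc
  · have hev : ∀ᶠ s in 𝓝 t, h.vel s = - √(G (h.sol s)) := by
      filter_upwards [hcc.eventually (gt_mem_nhds hc)] with s hs1
      rw [← h.vel_sq, Real.sqrt_sq_eq_abs, abs_of_nonpos, neg_neg]
      unfold Well.vel
      have := h.wQ_pos (h.phase s)
      exact mul_nonpos_of_nonpos_of_nonneg
        (mul_nonpos_of_nonneg_of_nonpos (by linarith) (le_of_lt hs1)) this.le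
    have h1 := hs.neg.congr_of_eventuallyEq hev
    have h2 : h.vel t = - √(G (h.sol t)) := hev.self_of_nhds
    have h3 : 0 < √(G (h.sol t)) := Real.sqrt_pos.2 hG0
    have e : -(deriv G (h.sol t) * h.vel t / (2 * √(G (h.sol t)))) = deriv G (h.sol t) / 2 := by
      rw [h2]; field_simp
    rw [e] at h1
    exact h1
  · have hev : ∀ᶠ s in 𝓝 t, h.vel s = √(G (h.sol s)) := by
      filter_upwards [hcc.eventually (lt_mem_nhds hc)] with s hs1
      rw [← h.vel_sq, Real.sqrt_sq_eq_abs, abs_of_nonneg]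
      unfold Well.vel
      have := h.wQ_pos (h.phase s)
      exact mul_nonneg (mul_nonneg (by linarith) (le_of_lt hs1)) this.le
    have h1 := hs.congr_of_eventuallyEq hev
    have h2 : h.vel t = √(G (h.sol t)) := hev.self_of_nhds
    have h3 : 0 < √(G (h.sol t)) := Real.sqrt_pos.2 hG0
    have e : deriv G (h.sol t) * h.vel t / (2 * √(G (h.sol t))) = deriv G (h.sol t) / 2 := by
      rw [h2]; field_simp
    rw [e] at h1
    exact h1

lemma cos_zero_countable : {φ : ℝ | cos φ = 0}.Countable := by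
  have : {φ : ℝ | cos φ = 0} ⊆ Set.range (fun k : ℤ => (2 * k + 1) * π / 2) := by
    intro φ hφ
    obtain ⟨k, hk⟩ := cos_eq_zero_iff.1 hφ
    exact ⟨k, hk.symm⟩
  exact (Set.countable_range _).mono this

lemma Well.vel_eq_integral (h : Well G r1 r2) (t : ℝ) :
    ∫ s in (0 : ℝ)..t, deriv G (h.sol s) / 2 = h.vel t - h.vel 0 := by
  have hcount : {s : ℝ | cos (h.phase s) = 0}.Countable :=
    cos_zero_countable.preimage_of_injOn h.phase_injective.injOn
  refine integral_eq_of_hasDerivAt_off_countable h.vel (fun s => deriv G (h.sol s) / 2) hcount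
    h.vel_continuous.continuousOn ?_ ((h.deriv_sol_continuous.div_const 2).intervalIntegrable _ _)
  intro x hx
  exact h.vel_hasDerivAt_of_ne hx.2

lemma Well.vel_hasDerivAt (h : Well G r1 r2) (t : ℝ) :
    HasDerivAt h.vel (deriv G (h.sol t) / 2) t := by
  have h1 : HasDerivAt (fun t => (∫ s in (0 : ℝ)..t, deriv G (h.sol s) / 2) + h.vel 0)
      (deriv G (h.sol t) / 2) t :=
    (((h.deriv_sol_continuous.div_const 2).integral_hasStrictDerivAt 0 t).hasDerivAt).add_const _
  refine h1.congr_of_eventuallyEq (Eventually.of_forall fun s => ?_)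
  simp only [h.vel_eq_integral]; ring

lemma Well.sol_contDiff_nat (h : Well G r1 r2) (n : ℕ) : ContDiff ℝ n h.sol := by
  induction n with
  | zero => exact contDiff_zero.2 h.sol_continuous
  | succ n ih =>
    have hd : deriv h.sol = h.vel := funext fun t => (h.sol_hasDerivAt t).deriv
    have hcomp : ContDiff ℝ n (fun t => deriv G (h.sol t) / 2) := by
      rw [contDiff_iff_contDiffAt]
      intro t
      have h1 : ContDiffAt ℝ n (deriv G) (h.sol t) :=
        (h.deriv_contDiffAt (h.sol_mem t)).of_le (by exact_mod_cast le_top)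
      exact (h1.comp t ih.contDiffAt).div_const 2
    have hv : ContDiff ℝ n h.vel := by
      have hdv : deriv h.vel = fun t => deriv G (h.sol t) / 2 :=
        funext fun t => (h.vel_hasDerivAt t).deriv
      have : ContDiff ℝ (n + 1) h.vel := by
        rw [contDiff_succ_iff_deriv]
        refine ⟨fun t => (h.vel_hasDerivAt t).differentiableAt, ?_, ?_⟩
        · intro hn; exact absurd hn (by simp)
        · rw [hdv]; exact hcomp
      exact this.of_le (by exact_mod_cast Nat.le_succ n)
    have : ContDiff ℝ (n + 1) h.sol := by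
      rw [contDiff_succ_iff_deriv]
      refine ⟨fun t => (h.sol_hasDerivAt t).differentiableAt, ?_, ?_⟩
      · intro hn; exact absurd hn (by simp)
      · rw [hd]; exact hv
    exact_mod_cast this

lemma Well.sol_contDiff (h : Well G r1 r2) : ContDiff ℝ (⊤ : ℕ∞) h.sol :=
  contDiff_infty.2 h.sol_contDiff_nat

/-- The change of variables between the phase and the position. -/
lemma Well.image_rho (h : Well G r1 r2) :
    rho r1 r2 '' Ioo (-(π / 2)) (π / 2) = Ioo r1 r2 := by
  have hlt := h.lt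
  ext x
  constructor
  · rintro ⟨φ, hφ, rfl⟩
    exact rho_mem_Ioo h.lt (cos_pos_of_mem_Ioo hφ).ne'
  · rintro ⟨h1, h2⟩
    have ha : 0 < (r2 - r1) / 2 := by linarith
    set y := (x - (r1 + r2) / 2) / ((r2 - r1) / 2) with hy
    have hy1 : -1 < y := by rw [hy, lt_div_iff₀ ha]; linarith
    have hy2 : y < 1 := by rw [hy, div_lt_iff₀ ha]; linarith
    refine ⟨arcsin y, ⟨?_, ?_⟩, ?_⟩
    · exact neg_pi_div_two_lt_arcsin.2 hy1
    · exact arcsin_lt_pi_div_two.2 hy2
    · unfold rho
      rw [sin_arcsin hy1.le hy2.le, hy, mul_div_cancel₀ _ ha.ne']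
      ring

lemma Well.rho_injOn (h : Well G r1 r2) : InjOn (rho r1 r2) (Ioo (-(π / 2)) (π / 2)) := by
  intro x hx y hy hxy
  have hlt := h.lt
  have ha : (r2 - r1) / 2 ≠ 0 := by
    have : 0 < (r2 - r1) / 2 := by linarith
    exact this.ne'
  have h1 : sin x = sin y := by
    unfold rho at hxy
    have : (r2 - r1) / 2 * sin x = (r2 - r1) / 2 * sin y := by linarith
    exact mul_left_cancel₀ ha this
  exact injOn_sin ⟨hx.1.le, hx.2.le⟩ ⟨hy.1.le, hy.2.le⟩ h1

lemma Well.subst_integrand (h : Well G r1 r2) (F : ℝ → ℝ) {φ : ℝ}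
    (hφ : φ ∈ Ioo (-(π / 2)) (π / 2)) :
    |(r2 - r1) / 2 * cos φ| • (F (rho r1 r2 φ) / √(G (rho r1 r2 φ)))
      = F (rho r1 r2 φ) * (1 / wQ G r1 r2 φ) := by
  have hlt := h.lt
  have hc := cos_pos_of_mem_Ioo hφ
  have hQ := h.wQ_pos φ
  have ha : 0 < (r2 - r1) / 2 := by linarith
  have h1 : 0 < (r2 - r1) / 2 * cos φ := mul_pos ha hc
  rw [h.G_rho, Real.sqrt_sq (mul_pos h1 hQ).le, abs_of_pos h1, smul_eq_mul]
  have h2 : (r2 - r1) / 2 * cos φ ≠ 0 := h1.ne'
  rw [mul_div_assoc', mul_div_mul_left _ _ h2, mul_one_div]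

lemma Well.integrableOn (h : Well G r1 r2) {F : ℝ → ℝ} (hF : ContinuousOn F (Icc r1 r2)) :
    IntegrableOn (fun x => F x / √(G x)) (Ioo r1 r2) := by
  rw [← h.image_rho]
  rw [integrableOn_image_iff_integrableOn_abs_deriv_smul measurableSet_Ioo
    (fun x _ => (rho_hasDerivAt x).hasDerivWithinAt) h.rho_injOn]
  have hcont : Continuous (fun φ => F (rho r1 r2 φ) * (1 / wQ G r1 r2 φ)) := by
    refine Continuous.mul ?_ h.inv_continuous
    exact hF.comp_continuous rho_continuous (fun φ => rho_mem h.lt φ)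
  have : IntegrableOn (fun φ => F (rho r1 r2 φ) * (1 / wQ G r1 r2 φ)) (Ioo (-(π / 2)) (π / 2)) :=
    (hcont.continuousOn.integrableOn_Icc (a := -(π / 2)) (b := π / 2)).mono_set Ioo_subset_Icc_self
  refine this.congr_fun (fun φ hφ => ?_) measurableSet_Ioo
  exact (h.subst_integrand F hφ).symm

lemma Well.integral_subst (h : Well G r1 r2) (F : ℝ → ℝ) :
    ∫ x in Ioo r1 r2, F x / √(G x)
      = ∫ φ in (-(π / 2))..(π / 2), F (rho r1 r2 φ) * (1 / wQ G r1 r2 φ) := by
  rw [← h.image_rho]
  rw [integral_image_eq_integral_abs_deriv_smul measurableSet_Ioo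
    (fun x _ => (rho_hasDerivAt x).hasDerivWithinAt) h.rho_injOn]
  rw [intervalIntegral.integral_of_le (by linarith [pi_pos]), integral_Ioc_eq_integral_Ioo]
  exact setIntegral_congr_fun measurableSet_Ioo (fun φ hφ => h.subst_integrand F hφ)

lemma rho_reflect (φ : ℝ) : rho r1 r2 (π - φ) = rho r1 r2 φ := by
  unfold rho; rw [sin_pi_sub]

/-- Time average along the solution = twice the integral over the well. -/
lemma Well.integral_period (h : Well G r1 r2) {F : ℝ → ℝ} (hF : ContinuousOn F (Icc r1 r2)) :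
    ∫ t in (0 : ℝ)..(per G r1 r2), F (h.sol t) = 2 * ∫ x in Ioo r1 r2, F x / √(G x) := by
  have hcont : Continuous (fun φ => F (rho r1 r2 φ)) :=
    hF.comp_continuous rho_continuous (fun φ => rho_mem h.lt φ)
  have hcontt : Continuous (fun t => F (h.sol t)) :=
    hF.comp_continuous h.sol_continuous (fun t => h.sol_mem t)
  have hK : Continuous (fun φ => F (rho r1 r2 φ) * (1 / wQ G r1 r2 φ)) :=
    hcont.mul h.inv_continuous
  have e1 : ∫ t in (0 : ℝ)..(per G r1 r2), F (h.sol t)
      = ∫ φ in (0 : ℝ)..(2 * π), F (rho r1 r2 φ) * (1 / wQ G r1 r2 φ) := by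
    have h1 := intervalIntegral.integral_comp_mul_deriv (a := 0) (b := 2 * π)
      (f := tau G r1 r2) (f' := fun φ => 1 / wQ G r1 r2 φ) (g := fun t => F (h.sol t))
      (fun x _ => h.tau_hasDerivAt x) h.inv_continuous.continuousOn hcontt
    have h0 : tau G r1 r2 0 = 0 := by simp [tau]
    have h2 : tau G r1 r2 (2 * π) = per G r1 r2 := rfl
    rw [h0, h2] at h1
    rw [← h1]
    apply intervalIntegral.integral_congr
    intro φ _
    simp only [Function.comp, Well.sol, h.phase_tau]
  have hper : Function.Periodic (fun φ => F (rho r1 r2 φ) * (1 / wQ G r1 r2 φ)) (2 * π) := by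
    intro s; simp only [wQ_add_two_pi, rho_add_two_pi]
  have e2 : ∫ φ in (0 : ℝ)..(2 * π), F (rho r1 r2 φ) * (1 / wQ G r1 r2 φ)
      = ∫ φ in (-(π / 2))..(3 * π / 2), F (rho r1 r2 φ) * (1 / wQ G r1 r2 φ) := by
    have := hper.intervalIntegral_add_eq 0 (-(π / 2))
    rw [zero_add] at this
    rw [this]
    congr 1; ring
  have e3 : ∫ φ in (π / 2)..(3 * π / 2), F (rho r1 r2 φ) * (1 / wQ G r1 r2 φ)
      = ∫ φ in (-(π / 2))..(π / 2), F (rho r1 r2 φ) * (1 / wQ G r1 r2 φ) := by
    have := intervalIntegral.integral_comp_sub_left (a := -(π / 2)) (b := π / 2)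
      (fun φ => F (rho r1 r2 φ) * (1 / wQ G r1 r2 φ)) π
    rw [show π - π / 2 = π / 2 by ring, show π - -(π / 2) = 3 * π / 2 by ring] at this
    rw [← this]
    apply intervalIntegral.integral_congr
    intro φ _
    simp only [wQ, rho_reflect]
  rw [e1, e2, h.integral_subst F, two_mul]
  rw [← intervalIntegral.integral_add_adjacent_intervals
    (hK.intervalIntegrable (-(π / 2)) (π / 2)) (hK.intervalIntegrable (π / 2) (3 * π / 2)), e3]

end

end SGR
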