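import Mathlib

/-!
# Rotationally symmetric metrics on the three-sphere and on the product of a two-sphere and a circle

Polar coordinates: a point is given by a real number `r` (distance coordinate along a meridian)
and a unit vector `u` of Euclidean three-space; the metric is `dr² + f(r)² g`, with `g` the round
metric of the unit two-sphere.
-/

namespace SGR

open Real

/-- Euclidean three-space. -/
abbrev E3 := EuclideanSpace ℝ (Fin 3)

/-- Profile of a smooth rotationally symmetric metric `dr² + f(r)² g` on the three-sphere: the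
distance between the two poles is `L`, and `f` extends to a smooth odd function of period `2 L`,
positive between the poles, with slope `1` at the first pole and `-1` at the second one (these are
the conditions for the metric to be smooth at the poles). -/
structure SphereProfile (L : ℝ) (f : ℝ → ℝ) : Prop where
  L_pos : 0 < L
  smooth : ContDiff ℝ (⊤ : ℕ∞) f
  odd : ∀ r, f (-r) = - f r
  periodic : ∀ r, f (r + 2 * L) = f r
  pos : ∀ r, 0 < r → r < L → 0 < f r
  deriv_zero : deriv f 0 = 1
  deriv_L : deriv f L = -1

/-- Profile of a smooth rotationally symmetric metric `dr² + f(r)² g` on the product of the circle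
of length `P` and the two-sphere: `f` is smooth, positive and `P`-periodic. -/
structure ProductProfile (P : ℝ) (f : ℝ → ℝ) : Prop where
  P_pos : 0 < P
  smooth : ContDiff ℝ (⊤ : ℕ∞) f
  periodic : ∀ r, f (r + P) = f r
  pos : ∀ r, 0 < f r

/-- `t ↦ (r t, u t)` is a smooth unit speed geodesic of `dr² + f(r)² g` (geodesic equations in
polar coordinates). -/
structure IsUnitGeodesic (f : ℝ → ℝ) (r : ℝ → ℝ) (u : ℝ → E3) : Prop where
  smooth_r : ContDiff ℝ (⊤ : ℕ∞) r
  smooth_u : ContDiff ℝ (⊤ : ℕ∞) u
  on_sphere : ∀ t, ‖u t‖ = 1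
  unit_speed : ∀ t, (deriv r t) ^ 2 + (f (r t)) ^ 2 * ‖deriv u t‖ ^ 2 = 1
  radial : ∀ t, deriv (deriv r) t = f (r t) * deriv f (r t) * ‖deriv u t‖ ^ 2
  angular : ∀ t, f (r t) • deriv (deriv u) t + (2 * deriv f (r t) * deriv r t) • deriv u t
      + (f (r t) * ‖deriv u t‖ ^ 2) • u t = 0

/-- The point of the unit sphere of `ℝ × E3` (the three-sphere) with polar coordinates `(r, u)`;
the poles are `r = 0` and `r = L`. -/
noncomputable def spherePoint (L : ℝ) (r : ℝ) (u : E3) : ℝ × E3 :=
  (cos (π * r / L), sin (π * r / L) • u)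

/-- The geodesic `(r, u)` of the three-sphere with pole distance `L` closes after the time `T`. -/
def ClosesOnSphere (L : ℝ) (r : ℝ → ℝ) (u : ℝ → E3) (T : ℝ) : Prop :=
  0 < T ∧ ∀ t, spherePoint L (r (t + T)) (u (t + T)) = spherePoint L (r t) (u t)

/-- The geodesic `(r, u)` of the product of the circle of length `P` and the two-sphere closes
after the time `T`. -/
def ClosesOnProduct (P : ℝ) (r : ℝ → ℝ) (u : ℝ → E3) (T : ℝ) : Prop :=
  0 < T ∧ ∀ t, (∃ k : ℤ, r (t + T) = r t + k * P) ∧ u (t + T) = u t

/-- The volume of `dr² + f(r)² g` for `r` between `0` and `D` (`4 π` is the area of the unit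
two-sphere). -/
noncomputable def volume3 (f : ℝ → ℝ) (D : ℝ) : ℝ := ∫ r in (0 : ℝ)..D, 4 * π * f r ^ 2

end SGR
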