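import Pool.Agent.SGR.Vol

/-!
# Main theorem
-/

namespace SGR

open Set MeasureTheory Real Filter Topology

lemma sphere_closes_of_eq {L : ℝ} {r : ℝ → ℝ} {u : ℝ → E3} {T : ℝ} (hT : 0 < T)
    (h : ∀ t, r (t + T) = r t ∧ u (t + T) = u t) : ClosesOnSphere L r u T :=
  ⟨hT, fun t => by rw [(h t).1, (h t).2]⟩

lemma meridian_closes {L : ℝ} (hL : 0 < L) :
    ClosesOnSphere L (fun t => t) (fun _ => e0) (2 * L) := by
  refine ⟨by positivity, fun t => ?_⟩
  unfold spherePoint
  have : π * (t + 2 * L) / L = π * t / L + 2 * π := by field_simp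
  rw [this, cos_add_two_pi, sin_add_two_pi]

lemma parallel_period {a : ℝ} (ha : 0 < a) (t : ℝ) :
    circ (fun t => t / a) (t + 2 * π * a) = circ (fun t => t / a) t := by
  apply circ_add_two_pi
  field_simp

/-- The three-sphere. -/
theorem sphere_main {L : ℝ} {f : ℝ → ℝ} (h : SphereProfile L f) :
    ∃ (r : ℝ → ℝ) (u : ℝ → E3) (T : ℝ), IsUnitGeodesic f r u ∧ ClosesOnSphere L r u T ∧
      T ^ 3 ≤ 4 * π * volume3 f L := by
  by_contra hcon
  push Not at hcon
  have hL := h.L_pos
  have hπ := pi_pos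
  set V := volume3 f L with hV
  have hVeq : V = 4 * π * ∫ x in (0 : ℝ)..L, f x ^ 2 := by
    rw [hV, volume3, intervalIntegral.integral_const_mul]
  have hVpos : 0 < V := by
    rw [hVeq]
    have : 0 < ∫ x in (0 : ℝ)..L, f x ^ 2 := by
      apply intervalIntegral.intervalIntegral_pos_of_pos_on
        ((h.cont.pow 2).intervalIntegrable _ _) _ hL
      intro x hx
      exact pow_pos (h.pos x hx.1 hx.2) 2
    exact mul_pos (by positivity) this
  obtain ⟨l, hl, hl3⟩ : ∃ l : ℝ, 0 < l ∧ l ^ 3 = 4 * π * V := by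
    have h0 : 0 < 4 * π * V := by positivity
    refine ⟨(4 * π * V) ^ ((1 : ℝ) / 3), Real.rpow_pos_of_pos h0 _, ?_⟩
    rw [← Real.rpow_natCast, ← Real.rpow_mul h0.le]
    norm_num
  have hlong : ∀ (r : ℝ → ℝ) (u : ℝ → E3) (T : ℝ), IsUnitGeodesic f r u →
      ClosesOnSphere L r u T → l < T := by
    intro r u T h1 h2
    have h3 := hcon r u T h1 h2
    rw [← hl3] at h3
    exact lt_of_pow_lt_pow_left₀ 3 h2.1.le h3
  -- meridians
  have hmer : l < 2 * L := hlong _ _ _ (geodesic_meridian f) (meridian_closes hL)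
  -- parallels
  have hpar : ∀ x ∈ Ioo 0 L, deriv f x = 0 → l < 2 * π * f x := by
    intro x hx hd
    have hfx := h.pos x hx.1 hx.2
    refine hlong _ _ _ (geodesic_parallel (h.diff x) hfx hd) (sphere_closes_of_eq (by positivity) ?_)
    intro t
    exact ⟨rfl, parallel_period hfx t⟩
  set C := l / (2 * π) with hCdef
  have hC : 0 < C := by positivity
  have hlC : l = 2 * π * C := by rw [hCdef]; field_simp
  have hcrit : ∀ x ∈ Ioo 0 L, f x ≤ C → deriv f x ≠ 0 := by
    intro x hx hfx hd
    have := hpar x hx hd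
    rw [hlC] at this
    nlinarith
  obtain ⟨xM, hxM, hM⟩ : ∃ xM ∈ Ioo 0 L, C < f xM := by
    obtain ⟨z, hz, hzmax⟩ := isCompact_Icc.exists_isMaxOn (nonempty_Icc.2 hL.le)
      (h.cont.continuousOn (s := Icc 0 L))
    have h1 : 0 < f (L / 2) := h.pos _ (by linarith) (by linarith)
    have h2 : f (L / 2) ≤ f z := hzmax ⟨by linarith, by linarith⟩
    have hz1 : 0 < z := by
      rcases eq_or_lt_of_le hz.1 with h3 | h3
      · rw [← h3, h.zero] at h2; linarith
      · exact h3
    have hz2 : z < L := by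
      rcases eq_or_lt_of_le hz.2 with h3 | h3
      · rw [h3, h.at_L] at h2; linarith
      · exact h3
    refine ⟨z, ⟨hz1, hz2⟩, ?_⟩
    have hloc : IsLocalMax f z := hzmax.isLocalMax (Icc_mem_nhds hz1 hz2)
    have := hpar z ⟨hz1, hz2⟩ hloc.deriv_eq_zero
    rw [hlC] at this
    nlinarith
  -- minimum of the width plus the momentum term
  have hkc : Continuous (fun c => wid f L c + π * c) :=
    h.wid_continuous.add (continuous_const.mul continuous_id)
  obtain ⟨c0, hc0, hmin⟩ := isCompact_Icc.exists_isMinOn (nonempty_Icc.2 hC.le)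
    (hkc.continuousOn (s := Icc 0 C))
  have hkey : l / 2 < wid f L c0 + π * c0 := by
    by_contra hle
    push Not at hle
    have hc0pos : 0 < c0 := by
      rcases eq_or_lt_of_le hc0.1 with h3 | h3
      · rw [← h3, h.wid_zero] at hle; linarith
      · exact h3
    have hc0lt : c0 < C := by
      rcases eq_or_lt_of_le hc0.2 with h3 | h3
      · rw [h3] at hle
        obtain ⟨s1, s2, a1, a2, a3, a4, a5⟩ := h.osc hC le_rfl hcrit hxM hM
        have hlev : Lev L f C s1 s2 := ⟨h, a1, a2, a3, a4, a5⟩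
        have hpos : 0 < wid f L C := by
          rw [hlev.wid_eq le_rfl, ← integral_Ioc_eq_integral_Ioo,
            ← intervalIntegral.integral_of_le a3.lt.le]
          refine intervalIntegral.intervalIntegral_pos_of_pos_on ?_ ?_ a3.lt
          · rw [intervalIntegrable_iff_integrableOn_Ioc_of_le a3.lt.le]
            exact h.phi_intble C measurableSet_Ioc (fun x hx => ⟨(a1.trans hx.1).le,
              hx.2.trans a2.le⟩)
          · intro x hx
            have h4 := a3.above x hx
            rw [phi_eq_pot (hC.trans h4)]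
            exact Real.sqrt_pos.2 (a3.well.pos x hx)
        linarith
      · exact h3
    obtain ⟨r1, r2, a1, a2, a3, a4, a5⟩ := h.osc hc0pos hc0lt.le hcrit hxM hM
    have hlev : Lev L f c0 r1 r2 := ⟨h, a1, a2, a3, a4, a5⟩
    have hang := hlev.angle hc0lt (fun c hc => hmin hc)
    obtain ⟨r, u, T, g1, g2, g3, g4⟩ := a3.closed (by
      have : ∫ x in Ioo r1 r2, (c0 / f x ^ 2) / √(pot f c0 x) = π := hang
      rw [this])
    have h5 := hlong r u T g1 (sphere_closes_of_eq g2 g3)
    rw [g4, hlev.length_eq, hang] at h5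
    linarith
  -- the moment
  have hmom := h.moment_le hC
  have hlow : ∫ c in (0 : ℝ)..C, c * ((wid f L c0 + π * c0) - π * c)
      ≤ ∫ c in (0 : ℝ)..C, c * wid f L c := by
    refine intervalIntegral.integral_mono_on hC.le ?_ ?_ ?_
    · exact Continuous.intervalIntegrable (by fun_prop) _ _
    · exact (continuous_id.mul h.wid_continuous).intervalIntegrable _ _
    · intro c hc
      have := hmin hc
      simp only [Set.mem_ofPred_eq] at this
      exact mul_le_mul_of_nonneg_left (by linarith) hc.1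
  have hcalc : ∫ c in (0 : ℝ)..C, c * ((wid f L c0 + π * c0) - π * c)
      = (wid f L c0 + π * c0) * C ^ 2 / 2 - π * C ^ 3 / 3 := by
    have h1 : ∀ m : ℝ, ∫ c in (0 : ℝ)..C, c * (m - π * c) = m * C ^ 2 / 2 - π * C ^ 3 / 3 := by
      intro m
      have h2 : ∀ c ∈ uIcc 0 C, HasDerivAt (fun c => m * c ^ 2 / 2 - π * c ^ 3 / 3)
          (c * (m - π * c)) c := by
        intro c _
        have h3 := (((hasDerivAt_id c).pow 2).const_mul m).div_const 2
        have h4 := (((hasDerivAt_id c).pow 3).const_mul π).div_const 3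
        refine (h3.sub h4).congr_deriv ?_
        simp only [id_eq, Nat.cast_ofNat]
        ring
      rw [intervalIntegral.integral_eq_sub_of_hasDerivAt h2
        (Continuous.intervalIntegrable (by fun_prop) _ _)]
      ring
    exact h1 _
  rw [hcalc] at hlow
  have hVf : ∫ x in (0 : ℝ)..L, f x ^ 2 = V / (4 * π) := by
    rw [hVeq]; field_simp
  rw [hVf] at hmom
  have hC2 : 0 < C ^ 2 := by positivity
  have h7 : l / 2 * C ^ 2 < (wid f L c0 + π * c0) * C ^ 2 := mul_lt_mul_of_pos_right hkey hC2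
  have h8 : π * C ^ 3 / 6 < V / (4 * π) / 3 := by
    have h9 : l / 2 * C ^ 2 = π * C ^ 3 := by rw [hlC]; ring
    linarith
  have h10 : l ^ 3 = 8 * π ^ 3 * C ^ 3 := by rw [hlC]; ring
  have h11 : V = 2 * π ^ 2 * C ^ 3 := by
    have : 4 * π * V = 4 * π * (2 * π ^ 2 * C ^ 3) := by rw [← hl3, h10]; ring
    exact mul_left_cancel₀ (by positivity) this
  rw [h11] at h8
  have h12 : 2 * π ^ 2 * C ^ 3 / (4 * π) / 3 = π * C ^ 3 / 6 := by field_simp; ring
  linarith

/-- The product of a circle and the two-sphere. -/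
theorem product_main {P : ℝ} {f : ℝ → ℝ} (h : ProductProfile P f) :
    ∃ (r : ℝ → ℝ) (u : ℝ → E3) (T : ℝ), IsUnitGeodesic f r u ∧ ClosesOnProduct P r u T ∧
      T ^ 3 ≤ π * volume3 f P := by
  have hP := h.P_pos
  have hπ := pi_pos
  have hc : Continuous f := h.smooth.continuous
  obtain ⟨z, hz, hzmin⟩ := isCompact_Icc.exists_isMinOn (nonempty_Icc.2 hP.le)
    (hc.continuousOn (s := Icc 0 P))
  have hglob : ∀ x, f z ≤ f x := by
    intro x
    have hper : Function.Periodic f P := h.periodic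
    obtain ⟨y, hy, hyx⟩ := hper.exists_mem_Ico₀ hP x
    rw [hyx]
    exact hzmin ⟨hy.1, hy.2.le⟩
  have hfz := h.pos z
  have hd : deriv f z = 0 := by
    have : IsLocalMin f z := Eventually.of_forall hglob
    exact this.deriv_eq_zero
  have hvol : 4 * π * f z ^ 2 * P ≤ volume3 f P := by
    unfold volume3
    have h1 : ∫ _x in (0 : ℝ)..P, 4 * π * f z ^ 2 ≤ ∫ x in (0 : ℝ)..P, 4 * π * f x ^ 2 := by
      refine intervalIntegral.integral_mono_on hP.le ?_ ?_ ?_
      · exact Continuous.intervalIntegrable (by fun_prop) _ _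
      · exact Continuous.intervalIntegrable (by fun_prop) _ _
      · intro x _
        have := pow_le_pow_left₀ hfz.le (hglob x) 2
        nlinarith
    rw [intervalIntegral.integral_const, sub_zero, smul_eq_mul] at h1
    linarith
  rcases le_total P (2 * π * f z) with hcase | hcase
  · refine ⟨fun t => t, fun _ => e0, P, geodesic_meridian f,
      ⟨hP, fun t => ⟨⟨1, by simp⟩, rfl⟩⟩, ?_⟩
    have h1 : P ^ 2 ≤ (2 * π * f z) ^ 2 := pow_le_pow_left₀ hP.le hcase 2
    calc P ^ 3 = P ^ 2 * P := by ring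
      _ ≤ (2 * π * f z) ^ 2 * P := mul_le_mul_of_nonneg_right h1 hP.le
      _ = π * (4 * π * f z ^ 2 * P) := by ring
      _ ≤ π * volume3 f P := mul_le_mul_of_nonneg_left hvol hπ.le
  · refine ⟨fun _ => z, circ (fun t => t / f z), 2 * π * f z,
      geodesic_parallel (h.smooth.differentiable (by simp) z) hfz hd,
      ⟨by positivity, fun t => ⟨⟨0, by simp⟩, parallel_period hfz t⟩⟩, ?_⟩
    calc (2 * π * f z) ^ 3 = (2 * π * f z) ^ 2 * (2 * π * f z) := by ring
      _ ≤ (2 * π * f z) ^ 2 * P := mul_le_mul_of_nonneg_left hcase (by positivity)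
      _ = π * (4 * π * f z ^ 2 * P) := by ring
      _ ≤ π * volume3 f P := mul_le_mul_of_nonneg_left hvol hπ.le

end SGR
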