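import Pool.Agent.SGR.Main

/-!
# The constants are attained: the round sphere and the round product
-/

namespace SGR

open Set MeasureTheory Real Filter Topology

lemma sin_profile : SphereProfile π sin := by
  refine ⟨pi_pos, contDiff_sin, sin_neg, sin_add_two_pi, fun r h1 h2 => sin_pos_of_pos_of_lt_pi h1 h2,
    ?_, ?_⟩
  · rw [Real.deriv_sin]; exact cos_zero
  · rw [Real.deriv_sin]; exact cos_pi

lemma sin_volume : volume3 sin π = 2 * π ^ 2 := by
  unfold volume3
  rw [intervalIntegral.integral_const_mul, integral_sin_sq]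
  simp
  ring

/-- A solution of `y'' = - y`. -/
lemma harmonic {E : Type*} [NormedAddCommGroup E] [NormedSpace ℝ E] {y v : ℝ → E}
    (h1 : ∀ t, HasDerivAt y (v t) t) (h2 : ∀ t, HasDerivAt v (-y t) t) (t : ℝ) :
    y t = cos t • y 0 + sin t • v 0 := by
  -- `a = cos t y - sin t v`, `b = sin t y + cos t v` are constant
  have ha : ∀ t, HasDerivAt (fun t => cos t • y t - sin t • v t) 0 t := by
    intro t
    have := ((hasDerivAt_cos t).smul (h1 t)).sub ((hasDerivAt_sin t).smul (h2 t))
    refine this.congr_deriv ?_
    simp only [smul_neg, neg_smul]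
    abel
  have hb : ∀ t, HasDerivAt (fun t => sin t • y t + cos t • v t) 0 t := by
    intro t
    have := ((hasDerivAt_sin t).smul (h1 t)).add ((hasDerivAt_cos t).smul (h2 t))
    refine this.congr_deriv ?_
    simp only [smul_neg, neg_smul]
    abel
  have ca := is_const_of_deriv_eq_zero (fun t => (ha t).differentiableAt)
    (fun t => (ha t).deriv) t 0
  have cb := is_const_of_deriv_eq_zero (fun t => (hb t).differentiableAt)
    (fun t => (hb t).deriv) t 0
  simp only [cos_zero, sin_zero, one_smul, zero_smul, sub_zero, zero_add] at ca cb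
  rw [← ca, ← cb]
  have h3 := sin_sq_add_cos_sq t
  simp only [smul_sub, smul_add, smul_smul]
  have e : y t = (sin t ^ 2 + cos t ^ 2) • y t := by rw [h3, one_smul]
  calc y t = (sin t ^ 2 + cos t ^ 2) • y t := e
    _ = _ := by
      rw [add_smul]
      have e1 : cos t * sin t = sin t * cos t := mul_comm _ _
      rw [e1, ← pow_two, ← pow_two]
      abel

lemma IsUnitGeodesic.r_hasDerivAt {f r : ℝ → ℝ} {u : ℝ → E3} (h : IsUnitGeodesic f r u) (t : ℝ) :
    HasDerivAt r (deriv r t) t := (h.smooth_r.differentiable (by simp) t).hasDerivAt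

lemma IsUnitGeodesic.u_hasDerivAt {f r : ℝ → ℝ} {u : ℝ → E3} (h : IsUnitGeodesic f r u) (t : ℝ) :
    HasDerivAt u (deriv u t) t := (h.smooth_u.differentiable (by simp) t).hasDerivAt

lemma IsUnitGeodesic.dr_hasDerivAt {f r : ℝ → ℝ} {u : ℝ → E3} (h : IsUnitGeodesic f r u) (t : ℝ) :
    HasDerivAt (deriv r) (deriv (deriv r) t) t :=
  ((contDiff_infty_iff_deriv.1 h.smooth_r).2.differentiable (by simp) t).hasDerivAt

lemma IsUnitGeodesic.du_hasDerivAt {f r : ℝ → ℝ} {u : ℝ → E3} (h : IsUnitGeodesic f r u) (t : ℝ) :
    HasDerivAt (deriv u) (deriv (deriv u) t) t :=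
  ((contDiff_infty_iff_deriv.1 h.smooth_u).2.differentiable (by simp) t).hasDerivAt

/-- On the round sphere every closed geodesic has length at least `2 π`. -/
lemma round_length {r : ℝ → ℝ} {u : ℝ → E3} {T : ℝ} (h : IsUnitGeodesic sin r u)
    (hT : ClosesOnSphere π r u T) : 2 * π ≤ T := by
  set y : ℝ → ℝ × E3 := fun t => (cos (r t), sin (r t) • u t) with hy
  set v : ℝ → ℝ × E3 := fun t =>
    (-sin (r t) * deriv r t, (cos (r t) * deriv r t) • u t + sin (r t) • deriv u t) with hv
  have h1 : ∀ t, HasDerivAt y (v t) t := by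
    intro t
    have hr := h.r_hasDerivAt t
    have hu := h.u_hasDerivAt t
    have := hr.cos.prodMk (hr.sin.smul hu)
    refine this.congr_deriv ?_
    simp only [hv]
    congr 1
    abel
  have h2 : ∀ t, HasDerivAt v (-y t) t := by
    intro t
    have hr := h.r_hasDerivAt t
    have hu := h.u_hasDerivAt t
    have hdr := h.dr_hasDerivAt t
    have hdu := h.du_hasDerivAt t
    have hsp := h.unit_speed t
    have hrad := h.radial t
    have hang := h.angular t
    rw [Real.deriv_sin] at hrad hang
    have e1 := (hr.sin.neg.mul hdr)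
    have e2 := ((hr.cos.mul hdr).smul hu).add (hr.sin.smul hdu)
    have := e1.prodMk e2
    refine this.congr_deriv ?_
    simp only [hy, Prod.neg_mk, Pi.neg_apply, Pi.mul_apply]
    have k1 : -(cos (r t) * deriv r t) * deriv r t + -sin (r t) * deriv (deriv r) t = -cos (r t) := by
      rw [hrad]
      have : deriv r t ^ 2 = 1 - sin (r t) ^ 2 * ‖deriv u t‖ ^ 2 := by linarith
      calc _ = -cos (r t) * (deriv r t ^ 2) - sin (r t) ^ 2 * cos (r t) * ‖deriv u t‖ ^ 2 := by ring
        _ = _ := by rw [this]; ring
    have k2 : (cos (r t) * deriv r t) • deriv u t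
        + ((-sin (r t) * deriv r t) * deriv r t + cos (r t) * deriv (deriv r) t) • u t
        + (sin (r t) • deriv (deriv u) t + (cos (r t) * deriv r t) • deriv u t)
        = -(sin (r t) • u t) := by
      rw [hrad]
      have h3 : sin (r t) • deriv (deriv u) t = -((2 * cos (r t) * deriv r t) • deriv u t
          + (sin (r t) * ‖deriv u t‖ ^ 2) • u t) := by
        rw [← sub_eq_zero, sub_neg_eq_add, ← hang]; abel
      rw [h3]
      have h4 : (-sin (r t) * deriv r t) * deriv r t
          + cos (r t) * (sin (r t) * cos (r t) * ‖deriv u t‖ ^ 2)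
          = -sin (r t) + sin (r t) * ‖deriv u t‖ ^ 2 := by
        have h5 : deriv r t ^ 2 = 1 - sin (r t) ^ 2 * ‖deriv u t‖ ^ 2 := by linarith
        have h6 : cos (r t) ^ 2 = 1 - sin (r t) ^ 2 := by
          have := sin_sq_add_cos_sq (r t); linarith
        calc _ = -sin (r t) * deriv r t ^ 2 + sin (r t) * ‖deriv u t‖ ^ 2 * cos (r t) ^ 2 := by ring
          _ = _ := by rw [h5, h6]; ring
      rw [h4, add_smul, neg_smul]
      have h7 : (2 * cos (r t) * deriv r t) • deriv u t
          = (cos (r t) * deriv r t) • deriv u t + (cos (r t) * deriv r t) • deriv u t := by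
        rw [← add_smul]; congr 1; ring
      rw [h7]
      abel
    rw [k1, k2]
  have hclose : ∀ t, y (t + T) = y t := by
    intro t
    have := hT.2 t
    unfold spherePoint at this
    have e : ∀ x : ℝ, π * x / π = x := fun x => by field_simp
    rw [e, e] at this
    exact this
  have hvclose : v T = v 0 := by
    have h3 : HasDerivAt (fun t => y (t + T)) (v (0 + T)) 0 := by
      have := h1 (0 + T)
      exact this.comp_add_const 0 T
    have h4 : HasDerivAt (fun t => y (t + T)) (v 0) 0 := by
      have : (fun t => y (t + T)) = y := funext hclose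
      rw [this]; exact h1 0
    have := h3.unique h4
    rwa [zero_add] at this
  -- norms
  have hsum := harmonic h1 h2 T
  have hy0 : y T = y 0 := by have := hclose 0; rwa [zero_add] at this
  have hvh : v T = cos T • v 0 + sin T • (-y 0) := by
    have h5 : ∀ t, HasDerivAt (fun t => -y t) (-v t) t := fun t => (h1 t).neg
    have := harmonic (y := v) (v := fun t => -y t) h2 h5 T
    exact this
  rw [hy0] at hsum
  rw [hvclose] at hvh
  -- the vector `y 0` is nonzero
  have hyne : y 0 ≠ 0 := by
    intro h0
    have h6 : cos (r 0) = 0 := congrArg Prod.fst h0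
    have h7 : sin (r 0) • u 0 = 0 := congrArg Prod.snd h0
    have h8 : ‖sin (r 0) • u 0‖ = |sin (r 0)| := by
      rw [norm_smul, h.on_sphere, mul_one, Real.norm_eq_abs]
    rw [h7, norm_zero] at h8
    have h9 : sin (r 0) = 0 := abs_eq_zero.1 h8.symm
    have := sin_sq_add_cos_sq (r 0)
    rw [h6, h9] at this
    norm_num at this
  -- combine: (1 - cos T) y0 = sin T v0, (1 - cos T) v0 = - sin T y0
  have hc : cos T = 1 := by
    have a1 : (1 - cos T) • y 0 = sin T • v 0 := by
      rw [sub_smul, one_smul]; nth_rewrite 1 [hsum]; abel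
    have a2 : (1 - cos T) • v 0 = -(sin T • y 0) := by
      rw [sub_smul, one_smul]; nth_rewrite 1 [hvh]; rw [smul_neg]; abel
    have a3 : (1 - cos T) • ((1 - cos T) • y 0) = -(sin T • (sin T • y 0)) := by
      rw [a1, smul_comm, a2, smul_neg]
    have a4 : ((1 - cos T) ^ 2 + sin T ^ 2) • y 0 = 0 := by
      rw [smul_smul, smul_smul] at a3
      rw [add_smul, pow_two, pow_two, a3]; abel
    rcases smul_eq_zero.1 a4 with h5 | h5
    · nlinarith [sq_nonneg (1 - cos T), sq_nonneg (sin T)]
    · exact absurd h5 hyne
  obtain ⟨n, hn⟩ := (cos_eq_one_iff T).1 hc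
  have hTpos := hT.1
  rw [← hn] at hTpos ⊢
  have hπ := pi_pos
  have hn1 : (0 : ℝ) < n := by
    by_contra hneg
    push Not at hneg
    nlinarith
  have hn2 : (1 : ℝ) ≤ n := by
    have : (0 : ℤ) < n := by exact_mod_cast hn1
    exact_mod_cast this
  nlinarith

lemma one_profile : ProductProfile (2 * π) (fun _ => 1) :=
  ⟨by positivity, contDiff_const, fun _ => rfl, fun _ => one_pos⟩

lemma one_volume : volume3 (fun _ => 1) (2 * π) = 8 * π ^ 2 := by
  unfold volume3
  rw [intervalIntegral.integral_const, smul_eq_mul]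
  ring

/-- On the round product every closed geodesic has length at least `2 π`. -/
lemma product_length {r : ℝ → ℝ} {u : ℝ → E3} {T : ℝ} (h : IsUnitGeodesic (fun _ => 1) r u)
    (hT : ClosesOnProduct (2 * π) r u T) : 2 * π ≤ T := by
  have hπ := pi_pos
  have hTpos := hT.1
  -- the radial speed is constant
  have hrr : ∀ t, deriv (deriv r) t = 0 := by
    intro t
    have := h.radial t
    simpa using this
  have hrc : ∀ t, deriv r t = deriv r 0 := by
    intro t
    exact is_const_of_deriv_eq_zero (fun t => (h.dr_hasDerivAt t).differentiableAt) hrr t 0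
  set a := deriv r 0 with ha
  have hlin : ∀ t, r t = r 0 + a * t := by
    intro t
    have h1 : ∀ t, HasDerivAt (fun t => r t - a * t) 0 t := by
      intro t
      have := (h.r_hasDerivAt t).sub ((hasDerivAt_id t).const_mul a)
      refine this.congr_deriv ?_
      rw [hrc t]; ring
    have := is_const_of_deriv_eq_zero (fun t => (h1 t).differentiableAt)
      (fun t => (h1 t).deriv) t 0
    simp only [mul_zero, sub_zero] at this
    linarith
  obtain ⟨k, hk⟩ := (hT.2 0).1
  rw [zero_add, hlin T] at hk
  have hk' : a * T = k * (2 * π) := by linarith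
  by_cases hk0 : k = 0
  · -- the curve is a great circle traversed at unit speed
    have ha0 : a = 0 := by
      rw [hk0] at hk'
      simp only [Int.cast_zero, zero_mul] at hk'
      rcases mul_eq_zero.1 hk' with h1 | h1
      · exact h1
      · exact absurd h1 hTpos.ne'
    have hn : ∀ t, ‖deriv u t‖ ^ 2 = 1 := by
      intro t
      have := h.unit_speed t
      rw [hrc t, ha0] at this
      simpa using this
    have h2 : ∀ t, HasDerivAt (deriv u) (-u t) t := by
      intro t
      have h3 := h.angular t
      have h4 := h.du_hasDerivAt t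
      refine h4.congr_deriv ?_
      rw [hn t] at h3
      have h5 : deriv (fun _ : ℝ => (1 : ℝ)) (r t) = 0 := deriv_const _ _
      rw [h5] at h3
      simp only [one_smul, mul_zero, zero_mul, zero_smul, add_zero, mul_one] at h3
      exact eq_neg_of_add_eq_zero_left h3
    have hsum := harmonic (fun t => h.u_hasDerivAt t) h2 T
    have hy0 : u T = u 0 := by have := (hT.2 0).2; rwa [zero_add] at this
    have hvclose : deriv u T = deriv u 0 := by
      have h3 : HasDerivAt (fun t => u (t + T)) (deriv u (0 + T)) 0 :=
        (h.u_hasDerivAt (0 + T)).comp_add_const 0 T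
      have h4 : HasDerivAt (fun t => u (t + T)) (deriv u 0) 0 := by
        have : (fun t => u (t + T)) = u := funext fun t => (hT.2 t).2
        rw [this]; exact h.u_hasDerivAt 0
      have := h3.unique h4
      rwa [zero_add] at this
    have hvh : deriv u T = cos T • deriv u 0 + sin T • (-u 0) := by
      have h5 : ∀ t, HasDerivAt (fun t => -u t) (-deriv u t) t := fun t => (h.u_hasDerivAt t).neg
      exact harmonic (y := deriv u) (v := fun t => -u t) h2 h5 T
    rw [hy0] at hsum
    rw [hvclose] at hvh
    have hyne : u 0 ≠ 0 := by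
      intro h0
      have := h.on_sphere 0
      rw [h0, norm_zero] at this
      norm_num at this
    have hc : cos T = 1 := by
      have a1 : (1 - cos T) • u 0 = sin T • deriv u 0 := by
        rw [sub_smul, one_smul]; nth_rewrite 1 [hsum]; abel
      have a2 : (1 - cos T) • deriv u 0 = -(sin T • u 0) := by
        rw [sub_smul, one_smul]; nth_rewrite 1 [hvh]; rw [smul_neg]; abel
      have a3 : (1 - cos T) • ((1 - cos T) • u 0) = -(sin T • (sin T • u 0)) := by
        rw [a1, smul_comm, a2, smul_neg]
      have a4 : ((1 - cos T) ^ 2 + sin T ^ 2) • u 0 = 0 := by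
        rw [smul_smul, smul_smul] at a3
        rw [add_smul, pow_two, pow_two, a3]; abel
      rcases smul_eq_zero.1 a4 with h5 | h5
      · nlinarith [sq_nonneg (1 - cos T), sq_nonneg (sin T)]
      · exact absurd h5 hyne
    obtain ⟨n, hn'⟩ := (cos_eq_one_iff T).1 hc
    rw [← hn'] at hTpos ⊢
    have hn1 : (0 : ℝ) < n := by
      by_contra hneg
      push Not at hneg
      nlinarith
    have hn2 : (1 : ℝ) ≤ n := by
      have : (0 : ℤ) < n := by exact_mod_cast hn1
      exact_mod_cast this
    nlinarith
  · have ha1 : |a| ≤ 1 := by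
      have := h.unit_speed 0
      rw [← ha] at this
      have h3 : a ^ 2 ≤ 1 := by
        have : 0 ≤ ((fun _ => (1 : ℝ)) (r 0)) ^ 2 * ‖deriv u 0‖ ^ 2 := by positivity
        linarith
      exact abs_le_one_iff_mul_self_le_one.2 (by nlinarith)
    have hk1 : (1 : ℝ) ≤ |(k : ℝ)| := by
      have : 1 ≤ |k| := Int.one_le_abs hk0
      exact_mod_cast this
    have h4 : |a| * T = |(k : ℝ)| * (2 * π) := by
      have := congrArg abs hk'
      rw [abs_mul, abs_mul, abs_of_pos hTpos, abs_of_pos (by positivity : 0 < 2 * π)] at this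
      exact this
    nlinarith

end SGR
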