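import Pool.Agent.SGR.Struct

/-!
# The width function and its critical points
-/

namespace SGR

open Set MeasureTheory Real Filter Topology

/-- The integrand. -/
noncomputable def phi (f : ℝ → ℝ) (c x : ℝ) : ℝ := √(f x ^ 2 - c ^ 2) / f x

/-- Half of the action of the meridian oscillation of momentum `c`. -/
noncomputable def wid (f : ℝ → ℝ) (L c : ℝ) : ℝ := ∫ x in Ioo 0 L, phi f c x

section
variable {L : ℝ} {f : ℝ → ℝ}

lemma phi_nonneg {c x : ℝ} (hx : 0 ≤ f x) : 0 ≤ phi f c x := div_nonneg (Real.sqrt_nonneg _) hx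

lemma phi_le_one {c x : ℝ} (hx : 0 ≤ f x) : phi f c x ≤ 1 := by
  unfold phi
  rcases eq_or_lt_of_le hx with h | h
  · rw [← h]; simp
  · rw [div_le_one h]
    calc √(f x ^ 2 - c ^ 2) ≤ √(f x ^ 2) := Real.sqrt_le_sqrt (by nlinarith [sq_nonneg c])
      _ = f x := Real.sqrt_sq hx

lemma phi_eq_zero {c x : ℝ} (hx : 0 ≤ f x) (h : f x ≤ c) : phi f c x = 0 := by
  unfold phi
  rw [Real.sqrt_eq_zero_of_nonpos (by nlinarith), zero_div]

lemma phi_eq_pot {c x : ℝ} (hx : 0 < f x) : phi f c x = √(pot f c x) := by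
  unfold phi pot
  have h1 : 1 - c ^ 2 / f x ^ 2 = (f x ^ 2 - c ^ 2) / f x ^ 2 := by field_simp
  rw [h1, Real.sqrt_div' _ (by positivity), Real.sqrt_sq hx.le]

lemma phi_meas (hf : Continuous f) (c : ℝ) : Measurable (phi f c) := by
  unfold phi
  exact ((hf.measurable.pow_const 2).sub_const _).sqrt.div hf.measurable

lemma phi_cont (x : ℝ) : Continuous (fun c => phi f c x) := by
  unfold phi; fun_prop

lemma SphereProfile.phi_intble (h : SphereProfile L f) (c : ℝ) {s : Set ℝ}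
    (hs : MeasurableSet s) (hsub : s ⊆ Icc 0 L) :
    IntegrableOn (phi f c) s := by
  have h1 : IntegrableOn (fun _ : ℝ => (1 : ℝ)) s := by
    refine (integrableOn_const (s := Icc 0 L) ?_).mono_set hsub
    simp
  refine Integrable.mono' h1 (phi_meas h.cont c).aestronglyMeasurable ?_
  filter_upwards [ae_restrict_mem hs] with x hx
  rw [Real.norm_of_nonneg (phi_nonneg (h.nonneg (hsub hx)))]
  exact phi_le_one (h.nonneg (hsub hx))

lemma SphereProfile.wid_continuous (h : SphereProfile L f) : Continuous (wid f L) := by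
  unfold wid
  refine continuous_of_dominated (bound := fun _ => (1 : ℝ))
    (fun c => (phi_meas h.cont c).aestronglyMeasurable) ?_ ?_ ?_
  · intro c
    filter_upwards [ae_restrict_mem measurableSet_Ioo] with x hx
    have h0 := h.nonneg ⟨hx.1.le, hx.2.le⟩
    rw [Real.norm_of_nonneg (phi_nonneg h0)]
    exact phi_le_one h0
  · have : IntegrableOn (fun _ : ℝ => (1 : ℝ)) (Ioo 0 L) := by
      refine integrableOn_const ?_
      simp
    exact this
  · exact Eventually.of_forall fun x => phi_cont x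

lemma SphereProfile.wid_zero (h : SphereProfile L f) : wid f L 0 = L := by
  unfold wid
  have : ∫ x in Ioo 0 L, phi f 0 x = ∫ x in Ioo 0 L, (1 : ℝ) := by
    refine setIntegral_congr_fun measurableSet_Ioo (fun x hx => ?_)
    have h0 := h.pos x hx.1 hx.2
    simp only [phi]
    rw [zero_pow two_ne_zero, sub_zero, Real.sqrt_sq h0.le, div_self h0.ne']
  rw [this]
  simp [h.L_pos.le]

/-- Pointwise concavity estimate. -/
lemma phi_le {c c0 x : ℝ} (hc : 0 ≤ c) (hc0 : 0 < c0) (hx : c0 < f x) :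
    phi f c x ≤ phi f c0 x + (c0 - c) * ((c0 / f x ^ 2) / √(pot f c0 x))
      + (if f x ^ 2 < c * c0 then 2 * |c - c0| * ((c0 / f x ^ 2) / √(pot f c0 x)) else 0) := by
  have hF : 0 < f x := hc0.trans hx
  rw [← phi_eq_pot hF]
  unfold phi
  set F := f x with hFdef
  have hA0 : 0 < F ^ 2 - c0 ^ 2 := by nlinarith
  set A := √(F ^ 2 - c0 ^ 2) with hA
  set B := √(F ^ 2 - c ^ 2) with hB
  have hApos : 0 < A := Real.sqrt_pos.2 hA0
  have hAsq : A ^ 2 = F ^ 2 - c0 ^ 2 := Real.sq_sqrt hA0.le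
  have hB0 : 0 ≤ B := Real.sqrt_nonneg _
  -- the product estimate
  have hAB : A * B ≤ |F ^ 2 - c * c0| := by
    rcases le_or_gt (F ^ 2) (c ^ 2) with h1 | h1
    · have : B = 0 := Real.sqrt_eq_zero_of_nonpos (by linarith)
      rw [this, mul_zero]; exact abs_nonneg _
    · have hBsq : B ^ 2 = F ^ 2 - c ^ 2 := Real.sq_sqrt (by linarith)
      apply le_abs.2
      left
      have h2 : 0 ≤ F ^ 2 - c * c0 := by
        have : c < F := by nlinarith
        nlinarith
      refine (pow_le_pow_iff_left₀ (mul_nonneg hApos.le hB0) h2 two_ne_zero).1 ?_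
      rw [mul_pow, hAsq, hBsq]
      nlinarith [sq_nonneg (F * (c - c0))]
  have hθ : (c0 / F ^ 2) / (A / F) = c0 / (F * A) := by field_simp
  rw [hθ]
  have hB2 : B / F ≤ |F ^ 2 - c * c0| / (F * A) := by
    rw [div_le_div_iff₀ hF (by positivity)]
    nlinarith [mul_le_mul_of_nonneg_left hAB hF.le]
  refine hB2.trans ?_
  have hmain : A / F + (c0 - c) * (c0 / (F * A)) = (F ^ 2 - c * c0) / (F * A) := by
    have : F ^ 2 - c * c0 = A ^ 2 + c0 * (c0 - c) := by rw [hAsq]; ring
    rw [this]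
    field_simp
  rw [hmain]
  split_ifs with h2
  · have h3 : |F ^ 2 - c * c0| = (F ^ 2 - c * c0) + 2 * (c * c0 - F ^ 2) := by
      rw [abs_of_neg (by linarith)]; ring
    rw [h3]
    have h4 : c0 ≤ c := by nlinarith
    rw [abs_of_nonneg (by linarith : 0 ≤ c - c0)]
    rw [add_div]
    have h5 : 2 * (c * c0 - F ^ 2) / (F * A) ≤ 2 * (c - c0) * (c0 / (F * A)) := by
      rw [mul_div_assoc', div_le_div_iff_of_pos_right (by positivity)]
      nlinarith
    linarith
  · rw [abs_of_nonneg (by linarith), add_zero]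

end

/-- Everything known about the level `c0`. -/
structure Lev (L : ℝ) (f : ℝ → ℝ) (c0 r1 r2 : ℝ) : Prop where
  prof : SphereProfile L f
  r1_pos : 0 < r1
  r2_lt : r2 < L
  osc : Osc f c0 r1 r2
  left : ∀ x ∈ Icc 0 r1, 0 < deriv f x
  right : ∀ x ∈ Icc r2 L, deriv f x < 0

/-- The angle density. -/
noncomputable def theta (f : ℝ → ℝ) (c0 x : ℝ) : ℝ := (c0 / f x ^ 2) / √(pot f c0 x)

section
variable {L : ℝ} {f : ℝ → ℝ} {c0 r1 r2 : ℝ}

lemma Lev.sub (h : Lev L f c0 r1 r2) : Ioo r1 r2 ⊆ Icc 0 L := fun _ hx =>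
  ⟨(h.r1_pos.trans hx.1).le, (hx.2.trans h.r2_lt).le⟩

lemma Lev.theta_intble (h : Lev L f c0 r1 r2) : IntegrableOn (theta f c0) (Ioo r1 r2) := by
  have hw := h.osc.well
  refine hw.integrableOn (F := fun x => c0 / f x ^ 2) ?_
  refine continuousOn_const.div (h.prof.cont.continuousOn.pow 2) ?_
  intro x hx; exact pow_ne_zero 2 (h.osc.fpos hx).ne'

lemma Lev.theta_nonneg (h : Lev L f c0 r1 r2) {x : ℝ} (hx : x ∈ Ioo r1 r2) :
    0 ≤ theta f c0 x := by
  have := h.osc.c_pos
  unfold theta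
  positivity

lemma Lev.left_le (h : Lev L f c0 r1 r2) {x : ℝ} (hx : x ∈ Icc 0 r1) : f x ≤ c0 := by
  obtain ⟨δ, hδ, hb⟩ := h.prof.slope_left h.r1_pos h.osc.left h.left
  have := hb x hx
  nlinarith [hx.2]

lemma Lev.right_le (h : Lev L f c0 r1 r2) {x : ℝ} (hx : x ∈ Icc r2 L) : f x ≤ c0 := by
  obtain ⟨δ, hδ, hb⟩ := h.prof.slope_right h.r2_lt h.osc.right h.right
  have := hb x hx
  nlinarith [hx.1]

/-- For `c ≥ c0` only the well contributes. -/
lemma Lev.wid_eq (h : Lev L f c0 r1 r2) {c : ℝ} (hc : c0 ≤ c) :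
    wid f L c = ∫ x in Ioo r1 r2, phi f c x := by
  unfold wid
  refine setIntegral_eq_of_subset_of_forall_sdiff_eq_zero measurableSet_Ioo ?_ ?_
  · intro x hx; exact ⟨h.r1_pos.trans hx.1, hx.2.trans h.r2_lt⟩
  · intro x hx
    have h0 : 0 ≤ f x := h.prof.nonneg ⟨hx.1.1.le, hx.1.2.le⟩
    have h1 : f x ≤ c0 := by
      rcases le_or_gt x r1 with h2 | h2
      · exact h.left_le ⟨hx.1.1.le, h2⟩
      · rcases le_or_gt r2 x with h3 | h3
        · exact h.right_le ⟨h3, hx.1.2.le⟩
        · exact absurd ⟨h2, h3⟩ hx.2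
    exact phi_eq_zero h0 (h1.trans hc)

/-- The error of the upper side. -/
noncomputable def errUp (f : ℝ → ℝ) (c0 r1 r2 c : ℝ) : ℝ :=
  ∫ x in Ioo r1 r2, (if f x ^ 2 < c * c0 then theta f c0 x else 0)

lemma Lev.err_meas (h : Lev L f c0 r1 r2) (c : ℝ) :
    Measurable (fun x => if f x ^ 2 < c * c0 then theta f c0 x else 0) := by
  have hm : Measurable f := h.prof.cont.measurable
  refine Measurable.ite (measurableSet_lt (hm.pow_const 2) measurable_const) ?_ measurable_const
  unfold theta pot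
  exact (measurable_const.div (hm.pow_const 2)).div
    (measurable_const.sub (measurable_const.div (hm.pow_const 2))).sqrt

lemma Lev.err_intble (h : Lev L f c0 r1 r2) (c : ℝ) :
    IntegrableOn (fun x => if f x ^ 2 < c * c0 then theta f c0 x else 0) (Ioo r1 r2) := by
  refine Integrable.mono' h.theta_intble (h.err_meas c).aestronglyMeasurable ?_
  filter_upwards [ae_restrict_mem measurableSet_Ioo] with x hx
  have := h.theta_nonneg hx
  split_ifs
  · rw [Real.norm_of_nonneg this]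
  · simpa using this

lemma Lev.wid_upper (h : Lev L f c0 r1 r2) {c : ℝ} (hc : c0 < c) :
    wid f L c ≤ wid f L c0 - (c - c0) * (∫ x in Ioo r1 r2, theta f c0 x)
      + 2 * (c - c0) * errUp f c0 r1 r2 c := by
  rw [h.wid_eq hc.le, h.wid_eq le_rfl]
  have i1 := h.prof.phi_intble c measurableSet_Ioo h.sub
  have i2 := h.prof.phi_intble c0 measurableSet_Ioo h.sub
  have i3 := h.theta_intble
  have i4 := h.err_intble c
  have hle : ∫ x in Ioo r1 r2, phi f c x ≤ ∫ x in Ioo r1 r2, (phi f c0 x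
      + (c0 - c) * theta f c0 x
      + 2 * (c - c0) * (if f x ^ 2 < c * c0 then theta f c0 x else 0)) := by
    refine setIntegral_mono_on i1 ((i2.add (i3.const_mul _)).add (i4.const_mul _))
      measurableSet_Ioo ?_
    intro x hx
    have := phi_le (f := f) (h.osc.c_pos.le.trans hc.le) h.osc.c_pos (h.osc.above x hx)
    refine this.trans (le_of_eq ?_)
    unfold theta
    split_ifs
    · rw [abs_of_pos (by linarith)]
    · ring
  refine hle.trans (le_of_eq ?_)
  have j1 : IntegrableOn (fun x => phi f c0 x + (c0 - c) * theta f c0 x) (Ioo r1 r2) :=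
    i2.add (i3.const_mul _)
  have e1 := integral_add (μ := volume.restrict (Ioo r1 r2)) j1 (i4.const_mul (2 * (c - c0)))
  have e2 := integral_add (μ := volume.restrict (Ioo r1 r2)) i2 (i3.const_mul (c0 - c))
  rw [e1, e2, integral_const_mul, integral_const_mul]
  unfold errUp
  ring

lemma Lev.err_tendsto (h : Lev L f c0 r1 r2) :
    Tendsto (errUp f c0 r1 r2) (𝓝[>] c0) (𝓝 0) := by
  have h0 : (0 : ℝ) = ∫ x in Ioo r1 r2, (0 : ℝ) := by simp
  rw [h0]
  unfold errUp
  refine tendsto_integral_filter_of_dominated_convergence (theta f c0) ?_ ?_ h.theta_intble ?_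
  · exact Eventually.of_forall fun c => (h.err_meas c).aestronglyMeasurable
  · refine Eventually.of_forall fun c => ?_
    filter_upwards [ae_restrict_mem measurableSet_Ioo] with x hx
    have := h.theta_nonneg hx
    split_ifs
    · rw [Real.norm_of_nonneg this]
    · simpa using this
  · filter_upwards [ae_restrict_mem measurableSet_Ioo] with x hx
    have h1 := h.osc.above x hx
    have h2 := h.osc.c_pos
    refine tendsto_const_nhds.congr' ?_
    have h3 : c0 < f x ^ 2 / c0 := by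
      rw [lt_div_iff₀ h2]; nlinarith
    filter_upwards [Ioo_mem_nhdsGT h3] with c hc
    rw [if_neg]
    have := hc.2
    rw [lt_div_iff₀ h2] at this
    linarith

/-- Estimate outside of the well, below the level. -/
lemma outside_le {K η a b s t : ℝ} (hK : 0 ≤ K) (hη : 0 ≤ η) (hs : b - a ≤ η) {g : ℝ → ℝ}
    (hsub : Ioo a b ⊆ Ioo s t)
    (h0 : ∀ x ∈ Ioo s t, x ∉ Ioo a b → g x = 0) (h1 : ∀ x ∈ Ioo a b, |g x| ≤ K) :
    ∫ x in Ioo s t, g x ≤ K * η := by
  rw [setIntegral_eq_of_subset_of_forall_sdiff_eq_zero measurableSet_Ioo hsub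
    (fun x hx => h0 x hx.1 hx.2)]
  have h2 := norm_setIntegral_le_of_norm_le_const (μ := volume) (s := Ioo a b) (f := g) (C := K)
    (by simp) (by simpa using h1)
  have h3 : (volume (Ioo a b)).toReal ≤ η := by
    rw [Real.volume_Ioo]
    rcases le_total 0 (b - a) with h4 | h4
    · rw [ENNReal.toReal_ofReal h4]; exact hs
    · rw [ENNReal.ofReal_of_nonpos h4]; simpa using hη
  calc ∫ x in Ioo a b, g x ≤ ‖∫ x in Ioo a b, g x‖ := le_norm_self _
    _ ≤ K * volume.real (Ioo a b) := h2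
    _ ≤ K * η := mul_le_mul_of_nonneg_left h3 hK

lemma phi_le_sqrt {c x : ℝ} (hc : 0 < c) (hcc : c < c0) (hx : 0 ≤ f x) (hx2 : f x ≤ c0) :
    |phi f c x| ≤ √(1 - c ^ 2 / c0 ^ 2) := by
  have hc0 : 0 < c0 := hc.trans hcc
  rw [abs_of_nonneg (phi_nonneg hx)]
  rcases eq_or_lt_of_le hx with h | h
  · rw [phi_eq_zero hx (by rw [← h]; exact hc.le)]; exact Real.sqrt_nonneg _
  · rw [phi_eq_pot h]
    unfold pot
    apply Real.sqrt_le_sqrt
    have : c ^ 2 / c0 ^ 2 ≤ c ^ 2 / f x ^ 2 := by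
      apply div_le_div_of_nonneg_left (by positivity) (by positivity)
      exact pow_le_pow_left₀ hx hx2 2
    linarith

lemma Lev.wid_lower (h : Lev L f c0 r1 r2) : ∃ M, 0 ≤ M ∧ ∀ c, 0 < c → c < c0 →
    wid f L c ≤ wid f L c0 + (c0 - c) * (∫ x in Ioo r1 r2, theta f c0 x)
      + M * (c0 - c) * √(1 - c ^ 2 / c0 ^ 2) := by
  obtain ⟨δ, hδ, hb⟩ := h.prof.slope_left h.r1_pos h.osc.left h.left
  obtain ⟨ε, hε, he⟩ := h.prof.slope_right h.r2_lt h.osc.right h.right
  have hr := h.osc.lt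
  refine ⟨1 / δ + 1 / ε, by positivity, fun c hc hcc => ?_⟩
  have hK := Real.sqrt_nonneg (1 - c ^ 2 / c0 ^ 2)
  rw [h.wid_eq le_rfl]
  have hL1 : IntegrableOn (phi f c) (Ioc 0 r1) :=
    h.prof.phi_intble c measurableSet_Ioc (fun x hx => ⟨hx.1.le, hx.2.trans
      (hr.le.trans h.r2_lt.le)⟩)
  have hL2 : IntegrableOn (phi f c) (Ioc r1 r2) :=
    h.prof.phi_intble c measurableSet_Ioc (fun x hx => ⟨(h.r1_pos.trans hx.1).le, hx.2.trans
      h.r2_lt.le⟩)
  have hL3 : IntegrableOn (phi f c) (Ioc r2 L) :=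
    h.prof.phi_intble c measurableSet_Ioc (fun x hx => ⟨((h.r1_pos.trans hr).trans hx.1).le, hx.2⟩)
  have hsplit : wid f L c = (∫ x in Ioo 0 r1, phi f c x) + (∫ x in Ioo r1 r2, phi f c x)
      + ∫ x in Ioo r2 L, phi f c x := by
    unfold wid
    rw [← integral_Ioc_eq_integral_Ioo, ← integral_Ioc_eq_integral_Ioo,
      ← integral_Ioc_eq_integral_Ioo, ← integral_Ioc_eq_integral_Ioo]
    rw [← intervalIntegral.integral_of_le h.prof.L_pos.le,
      ← intervalIntegral.integral_of_le h.r1_pos.le, ← intervalIntegral.integral_of_le hr.le,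
      ← intervalIntegral.integral_of_le h.r2_lt.le]
    have k1 : IntervalIntegrable (phi f c) volume 0 r1 := by
      rw [intervalIntegrable_iff_integrableOn_Ioc_of_le h.r1_pos.le]; exact hL1
    have k2 : IntervalIntegrable (phi f c) volume r1 r2 := by
      rw [intervalIntegrable_iff_integrableOn_Ioc_of_le hr.le]; exact hL2
    have k3 : IntervalIntegrable (phi f c) volume r2 L := by
      rw [intervalIntegrable_iff_integrableOn_Ioc_of_le h.r2_lt.le]; exact hL3
    rw [intervalIntegral.integral_add_adjacent_intervals k1 k2,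
      intervalIntegral.integral_add_adjacent_intervals (k1.trans k2) k3]
  have i1 := h.prof.phi_intble c measurableSet_Ioo h.sub
  have i2 := h.prof.phi_intble c0 measurableSet_Ioo h.sub
  have i3 := h.theta_intble
  have hmid : ∫ x in Ioo r1 r2, phi f c x ≤ (∫ x in Ioo r1 r2, phi f c0 x)
      + (c0 - c) * ∫ x in Ioo r1 r2, theta f c0 x := by
    rw [← integral_const_mul, ← integral_add i2 (i3.const_mul _)]
    refine setIntegral_mono_on i1 (i2.add (i3.const_mul _)) measurableSet_Ioo ?_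
    intro x hx
    have h1 := h.osc.above x hx
    have := phi_le (f := f) hc.le h.osc.c_pos h1
    rw [if_neg, add_zero] at this
    · exact this
    · have := h.osc.c_pos
      push Not
      nlinarith
  have hleft : ∫ x in Ioo 0 r1, phi f c x ≤ √(1 - c ^ 2 / c0 ^ 2) * ((c0 - c) / δ) := by
    refine outside_le (a := max 0 (r1 - (c0 - c) / δ)) (b := r1) hK
      (div_nonneg (by linarith) hδ.le) ?_ ?_ ?_ ?_
    · have := le_max_right 0 (r1 - (c0 - c) / δ)
      linarith
    · intro x hx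
      exact ⟨lt_of_le_of_lt (le_max_left _ _) hx.1, hx.2⟩
    · intro x hx hx2
      have h1 : x ≤ r1 - (c0 - c) / δ := by
        by_contra h3
        push Not at h3
        exact hx2 ⟨max_lt hx.1 h3, hx.2⟩
      have h2 := hb x ⟨hx.1.le, hx.2.le⟩
      refine phi_eq_zero (h.prof.nonneg ⟨hx.1.le, by linarith [hx.2, h.r2_lt]⟩) ?_
      have h3 : (c0 - c) / δ ≤ r1 - x := by linarith
      rw [div_le_iff₀ hδ] at h3
      linarith
    · intro x hx
      have hx0 : 0 < x := lt_of_le_of_lt (le_max_left _ _) hx.1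
      exact phi_le_sqrt hc hcc (h.prof.nonneg ⟨hx0.le, by linarith [hx.2, h.r2_lt]⟩)
        (h.left_le ⟨hx0.le, hx.2.le⟩)
  have hright : ∫ x in Ioo r2 L, phi f c x ≤ √(1 - c ^ 2 / c0 ^ 2) * ((c0 - c) / ε) := by
    refine outside_le (a := r2) (b := min L (r2 + (c0 - c) / ε)) hK
      (div_nonneg (by linarith) hε.le) ?_ ?_ ?_ ?_
    · have := min_le_right L (r2 + (c0 - c) / ε)
      linarith
    · intro x hx
      exact ⟨hx.1, lt_of_lt_of_le hx.2 (min_le_left _ _)⟩
    · intro x hx hx2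
      have h1 : r2 + (c0 - c) / ε ≤ x := by
        by_contra h3
        push Not at h3
        exact hx2 ⟨hx.1, lt_min hx.2 h3⟩
      have h2 := he x ⟨hx.1.le, hx.2.le⟩
      refine phi_eq_zero (h.prof.nonneg ⟨by linarith [hx.1, h.r1_pos], hx.2.le⟩) ?_
      have h3 : (c0 - c) / ε ≤ x - r2 := by linarith
      rw [div_le_iff₀ hε] at h3
      linarith
    · intro x hx
      have hx0 : x < L := lt_of_lt_of_le hx.2 (min_le_left _ _)
      exact phi_le_sqrt hc hcc (h.prof.nonneg ⟨by linarith [hx.1, h.r1_pos], hx0.le⟩)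
        (h.right_le ⟨hx.1.le, hx0.le⟩)
  rw [hsplit]
  have e : (1 / δ + 1 / ε) * (c0 - c) * √(1 - c ^ 2 / c0 ^ 2)
      = √(1 - c ^ 2 / c0 ^ 2) * ((c0 - c) / δ) + √(1 - c ^ 2 / c0 ^ 2) * ((c0 - c) / ε) := by ring
  rw [e]
  linarith

/-- At an interior minimum of `2 wid + 2 π c` the angle advance is `2 π`. -/
lemma Lev.angle (h : Lev L f c0 r1 r2) {C : ℝ} (hC : c0 < C)
    (hmin : ∀ c ∈ Icc 0 C, wid f L c0 + π * c0 ≤ wid f L c + π * c) :
    ∫ x in Ioo r1 r2, theta f c0 x = π := by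
  have hc0 := h.osc.c_pos
  apply le_antisymm
  · have h1 : Tendsto (fun c => π + 2 * errUp f c0 r1 r2 c) (𝓝[>] c0) (𝓝 (π + 2 * 0)) :=
      (h.err_tendsto.const_mul 2).const_add π
    rw [mul_zero, add_zero] at h1
    refine ge_of_tendsto h1 ?_
    filter_upwards [Ioo_mem_nhdsGT hC] with c hc
    have h2 := hmin c ⟨by linarith [hc.1], hc.2.le⟩
    have h3 := h.wid_upper hc.1
    have h4 : 0 < c - c0 := by linarith [hc.1]
    have h5 : (c - c0) * (∫ x in Ioo r1 r2, theta f c0 x)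
        ≤ (c - c0) * (π + 2 * errUp f c0 r1 r2 c) := by nlinarith
    exact le_of_mul_le_mul_left h5 h4
  · obtain ⟨M, hM, hb⟩ := h.wid_lower
    have hcont : Tendsto (fun c => (∫ x in Ioo r1 r2, theta f c0 x)
        + M * √(1 - c ^ 2 / c0 ^ 2)) (𝓝[<] c0)
        (𝓝 ((∫ x in Ioo r1 r2, theta f c0 x) + M * √(1 - c0 ^ 2 / c0 ^ 2))) := by
      have : Continuous (fun c : ℝ => (∫ x in Ioo r1 r2, theta f c0 x)
        + M * √(1 - c ^ 2 / c0 ^ 2)) := by fun_prop
      exact this.continuousAt.continuousWithinAt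
    rw [div_self (pow_ne_zero 2 hc0.ne'), sub_self, Real.sqrt_zero, mul_zero, add_zero] at hcont
    refine ge_of_tendsto hcont ?_
    filter_upwards [Ioo_mem_nhdsLT hc0] with c hc
    have h2 := hmin c ⟨hc.1.le, by linarith [hc.2]⟩
    have h3 := hb c hc.1 hc.2
    have h4 : 0 < c0 - c := by linarith [hc.2]
    have h5 : (c0 - c) * π
        ≤ (c0 - c) * ((∫ x in Ioo r1 r2, theta f c0 x) + M * √(1 - c ^ 2 / c0 ^ 2)) := by nlinarith
    exact le_of_mul_le_mul_left h5 h4

/-- The length of the oscillating closed geodesic. -/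
lemma Lev.length_eq (h : Lev L f c0 r1 r2) :
    ∫ x in Ioo r1 r2, 1 / √(pot f c0 x)
      = wid f L c0 + c0 * ∫ x in Ioo r1 r2, theta f c0 x := by
  rw [h.wid_eq le_rfl, ← integral_const_mul,
    ← integral_add (h.prof.phi_intble c0 measurableSet_Ioo h.sub) (h.theta_intble.const_mul _)]
  refine setIntegral_congr_fun measurableSet_Ioo (fun x hx => ?_)
  have h1 := h.osc.above x hx
  have h2 := h.osc.c_pos
  have h3 : 0 < f x := h2.trans h1
  rw [phi_eq_pot h3, theta]
  have h4 : 0 < pot f c0 x := h.osc.well.pos x hx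
  have h5 : 0 < √(pot f c0 x) := Real.sqrt_pos.2 h4
  have h6 : √(pot f c0 x) ^ 2 = 1 - c0 ^ 2 / f x ^ 2 := Real.sq_sqrt h4.le
  have h7 : √(pot f c0 x) + c0 * (c0 / f x ^ 2 / √(pot f c0 x))
      = (√(pot f c0 x) ^ 2 + c0 ^ 2 / f x ^ 2) / √(pot f c0 x) := by
    field_simp
  rw [h7, h6]
  ring

end

end SGR
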