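import Pool.Agent.SGR.Defs
import Pool.Agent.SGR.Osc

/-!
# The closed geodesics used in the proof: meridians, parallels, oscillating geodesics
-/

namespace SGR

open Set MeasureTheory Real Filter Topology

/-- First basis vector. -/
noncomputable def e0 : E3 := EuclideanSpace.single 0 (1 : ℝ)
/-- Second basis vector. -/
noncomputable def e1 : E3 := EuclideanSpace.single 1 (1 : ℝ)

lemma norm_comb_sq (a b : ℝ) : ‖a • e0 + b • e1‖ ^ 2 = a ^ 2 + b ^ 2 := by
  rw [EuclideanSpace.norm_sq_eq, Fin.sum_univ_three]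
  simp [e0, e1]

/-- The curve on the equator with angle `α`. -/
noncomputable def circ (α : ℝ → ℝ) (t : ℝ) : E3 := cos (α t) • e0 + sin (α t) • e1

/-- The rotated curve. -/
noncomputable def circp (α : ℝ → ℝ) (t : ℝ) : E3 := -sin (α t) • e0 + cos (α t) • e1

lemma norm_circ (α : ℝ → ℝ) (t : ℝ) : ‖circ α t‖ = 1 := by
  have h := norm_comb_sq (cos (α t)) (sin (α t))
  rw [cos_sq_add_sin_sq] at h
  have h0 := norm_nonneg (circ α t)
  unfold circ at *
  nlinarith

lemma norm_circp_sq (α : ℝ → ℝ) (t : ℝ) (w : ℝ) : ‖w • circp α t‖ ^ 2 = w ^ 2 := by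
  have h := norm_comb_sq (-sin (α t)) (cos (α t))
  rw [neg_sq, sin_sq_add_cos_sq] at h
  rw [norm_smul, mul_pow]
  unfold circp
  rw [h]; simp

lemma circ_hasDerivAt {α : ℝ → ℝ} {w t : ℝ} (h : HasDerivAt α w t) :
    HasDerivAt (circ α) (w • circp α t) t := by
  have h1 := (h.cos.smul_const e0).add (h.sin.smul_const e1)
  unfold circ circp
  refine h1.congr_deriv ?_
  rw [smul_add, smul_smul, smul_smul]
  congr 2 <;> ring

lemma circp_hasDerivAt {α : ℝ → ℝ} {w t : ℝ} (h : HasDerivAt α w t) :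
    HasDerivAt (circp α) (-w • circ α t) t := by
  have h1 := (h.sin.neg.smul_const e0).add (h.cos.smul_const e1)
  unfold circ circp
  refine h1.congr_deriv ?_
  rw [smul_add, smul_smul, smul_smul]
  congr 2 <;> ring

lemma circ_contDiff {α : ℝ → ℝ} (h : ContDiff ℝ (⊤ : ℕ∞) α) : ContDiff ℝ (⊤ : ℕ∞) (circ α) :=
  (h.cos.smul contDiff_const).add (h.sin.smul contDiff_const)

/-- A pair (radius, angle) solving the Clairaut equations gives a geodesic. -/
lemma geodesic_of_clairaut {f r α : ℝ → ℝ} {v w : ℝ → ℝ} {c : ℝ}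
    (hr : ContDiff ℝ (⊤ : ℕ∞) r) (hα : ContDiff ℝ (⊤ : ℕ∞) α)
    (hf : ∀ t, DifferentiableAt ℝ f (r t)) (hf0 : ∀ t, f (r t) ≠ 0)
    (h1 : ∀ t, HasDerivAt r (v t) t) (h2 : ∀ t, HasDerivAt α (c / f (r t) ^ 2) t)
    (h3 : ∀ t, v t ^ 2 = 1 - c ^ 2 / f (r t) ^ 2) (h4 : ∀ t, HasDerivAt v (w t) t)
    (h5 : ∀ t, w t = c ^ 2 * deriv f (r t) / f (r t) ^ 3) :
    IsUnitGeodesic f r (circ α) := by
  have hdr : deriv r = v := funext fun t => (h1 t).deriv
  have hdu : deriv (circ α) = fun t => (c / f (r t) ^ 2) • circp α t :=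
    funext fun t => (circ_hasDerivAt (h2 t)).deriv
  have hfr : ∀ t, HasDerivAt (fun s => f (r s)) (deriv f (r t) * v t) t := fun t =>
    (hf t).hasDerivAt.comp t (h1 t)
  have hn : ∀ t, ‖deriv (circ α) t‖ ^ 2 = (c / f (r t) ^ 2) ^ 2 := by
    intro t; rw [hdu]; exact norm_circp_sq _ _ _
  refine ⟨hr, circ_contDiff hα, norm_circ α, ?_, ?_, ?_⟩
  · intro t
    have := hf0 t
    rw [hn, hdr, h3]
    field_simp
    ring
  · intro t
    have := hf0 t
    rw [hn, hdr, (h4 t).deriv, h5]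
    field_simp
  · intro t
    have hne := hf0 t
    have hq : HasDerivAt (fun s => c / f (r s) ^ 2)
        (-(2 * c * (deriv f (r t) * v t)) / f (r t) ^ 3) t := by
      have := ((hasDerivAt_const t c).div ((hfr t).pow 2) (pow_ne_zero 2 hne))
      refine this.congr_deriv ?_
      simp only [Nat.cast_ofNat, Pi.pow_apply]
      field_simp
      ring
    have hdd : HasDerivAt (deriv (circ α))
        ((c / f (r t) ^ 2) • (-(c / f (r t) ^ 2) • circ α t)
          + (-(2 * c * (deriv f (r t) * v t)) / f (r t) ^ 3) • circp α t) t := by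
      rw [hdu]
      exact hq.smul (circp_hasDerivAt (h2 t))
    rw [hdd.deriv, hn, hdr, hdu]
    simp only [smul_add, smul_smul]
    have e1 : f (r t) * (c / f (r t) ^ 2 * -(c / f (r t) ^ 2)) + f (r t) * (c / f (r t) ^ 2) ^ 2
        = 0 := by ring
    have e2 : f (r t) * (-(2 * c * (deriv f (r t) * v t)) / f (r t) ^ 3)
        + 2 * deriv f (r t) * v t * (c / f (r t) ^ 2) = 0 := by
      field_simp; ring
    calc _ = (f (r t) * (c / f (r t) ^ 2 * -(c / f (r t) ^ 2)) + f (r t) * (c / f (r t) ^ 2) ^ 2)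
          • circ α t + (f (r t) * (-(2 * c * (deriv f (r t) * v t)) / f (r t) ^ 3)
        + 2 * deriv f (r t) * v t * (c / f (r t) ^ 2)) • circp α t := by
          simp only [add_smul]; abel
      _ = 0 := by rw [e1, e2]; simp

/-- Meridians. -/
lemma geodesic_meridian (f : ℝ → ℝ) : IsUnitGeodesic f (fun t => t) (fun _ => e0) := by
  have hd : deriv (fun _ : ℝ => e0) = fun _ => 0 := by
    funext t; exact deriv_const t e0
  have hr : deriv (fun t : ℝ => t) = fun _ => 1 := by
    funext t; exact deriv_id t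
  refine ⟨contDiff_id, contDiff_const, fun _ => by simp [e0], ?_, ?_, ?_⟩
  · intro t; rw [hd, hr]; simp
  · intro t; rw [hd, hr]; simp
  · intro t; rw [hd]; simp

/-- Parallels at critical radii. -/
lemma geodesic_parallel {f : ℝ → ℝ} {x : ℝ} (hf : DifferentiableAt ℝ f x) (hx : 0 < f x)
    (hd : deriv f x = 0) :
    IsUnitGeodesic f (fun _ => x) (circ (fun t => t / f x)) := by
  refine geodesic_of_clairaut (v := fun _ => 0) (w := fun _ => 0) (c := f x)
    contDiff_const (contDiff_id.div_const _) (fun _ => hf) (fun _ => hx.ne')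
    (fun t => hasDerivAt_const t x) ?_ ?_ (fun t => hasDerivAt_const t 0) ?_
  · intro t
    have := (hasDerivAt_id t).div_const (f x)
    refine this.congr_deriv ?_
    field_simp
  · intro t
    field_simp
    ring
  · intro t
    rw [hd]; simp

lemma circ_add_two_pi {α : ℝ → ℝ} {s t : ℝ} (h : α s = α t + 2 * π) : circ α s = circ α t := by
  unfold circ; rw [h, cos_add_two_pi, sin_add_two_pi]

/-- Oscillation data: `f > c` on `(r1, r2)`, transversal crossing at both ends. -/
structure Osc (f : ℝ → ℝ) (c r1 r2 : ℝ) : Prop where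
  c_pos : 0 < c
  lt : r1 < r2
  smooth : ContDiff ℝ (⊤ : ℕ∞) f
  left : f r1 = c
  right : f r2 = c
  above : ∀ x ∈ Ioo r1 r2, c < f x
  dleft : 0 < deriv f r1
  dright : deriv f r2 < 0

/-- The potential. -/
noncomputable def pot (f : ℝ → ℝ) (c : ℝ) (x : ℝ) : ℝ := 1 - c ^ 2 / f x ^ 2

section
variable {f : ℝ → ℝ} {c r1 r2 : ℝ}

lemma Osc.ge (h : Osc f c r1 r2) {x : ℝ} (hx : x ∈ Icc r1 r2) : c ≤ f x := by
  rcases eq_or_lt_of_le hx.1 with h1 | h1
  · rw [← h1, h.left]
  rcases eq_or_lt_of_le hx.2 with h2 | h2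
  · rw [h2, h.right]
  · exact (h.above x ⟨h1, h2⟩).le

lemma Osc.fpos (h : Osc f c r1 r2) {x : ℝ} (hx : x ∈ Icc r1 r2) : 0 < f x :=
  lt_of_lt_of_le h.c_pos (h.ge hx)

lemma Osc.diff (h : Osc f c r1 r2) : Differentiable ℝ f := h.smooth.differentiable (by simp)

lemma pot_hasDerivAt {x : ℝ} (hf : DifferentiableAt ℝ f x) (h0 : f x ≠ 0) :
    HasDerivAt (pot f c) (2 * c ^ 2 * deriv f x / f x ^ 3) x := by
  have := ((hasDerivAt_const x (c ^ 2)).div (hf.hasDerivAt.pow 2) (pow_ne_zero 2 h0)).const_sub 1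
  refine this.congr_deriv ?_
  simp only [Nat.cast_ofNat, Pi.pow_apply]
  field_simp
  ring

lemma Osc.well (h : Osc f c r1 r2) : Well (pot f c) r1 r2 := by
  have hc := h.c_pos
  have hl : r1 ∈ Icc r1 r2 := ⟨le_refl _, h.lt.le⟩
  have hr : r2 ∈ Icc r1 r2 := ⟨h.lt.le, le_refl _⟩
  refine ⟨h.lt, ?_, ?_, ?_, ?_, ?_, ?_⟩
  · intro x hx
    have h0 : f x ^ 2 ≠ 0 := pow_ne_zero 2 (h.fpos hx).ne'
    unfold pot
    exact contDiffAt_const.sub (contDiffAt_const.div (h.smooth.contDiffAt.pow 2) h0)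
  · unfold pot; rw [h.left, div_self (pow_ne_zero 2 hc.ne'), sub_self]
  · unfold pot; rw [h.right, div_self (pow_ne_zero 2 hc.ne'), sub_self]
  · intro x hx
    have h1 := h.above x hx
    have h2 : 0 < f x := hc.trans h1
    unfold pot
    have : c ^ 2 / f x ^ 2 < 1 := by
      rw [div_lt_one (by positivity)]
      exact pow_lt_pow_left₀ h1 hc.le two_ne_zero
    linarith
  · rw [(pot_hasDerivAt (h.diff r1) (h.fpos hl).ne').deriv]
    have := h.fpos hl
    have := h.dleft
    positivity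
  · rw [(pot_hasDerivAt (h.diff r2) (h.fpos hr).ne').deriv]
    have h1 := h.fpos hr
    have h2 := h.dright
    apply div_neg_of_neg_of_pos
    · have : 0 < 2 * c ^ 2 := by positivity
      nlinarith
    · positivity

/-- The oscillating geodesic: if the angle advance is `2 π`, it closes after one oscillation. -/
lemma Osc.closed (h : Osc f c r1 r2)
    (hΘ : 2 * ∫ x in Ioo r1 r2, (c / f x ^ 2) / √(pot f c x) = 2 * π) :
    ∃ (r : ℝ → ℝ) (u : ℝ → E3) (T : ℝ), IsUnitGeodesic f r u ∧ 0 < T ∧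
      (∀ t, r (t + T) = r t ∧ u (t + T) = u t) ∧
      T = 2 * ∫ x in Ioo r1 r2, 1 / √(pot f c x) := by
  have hw := h.well
  have hfc : Continuous f := h.smooth.continuous
  have hF : ContinuousOn (fun x => c / f x ^ 2) (Icc r1 r2) := by
    refine continuousOn_const.div (hfc.continuousOn.pow 2) ?_
    intro x hx; exact pow_ne_zero 2 (h.fpos hx).ne'
  have hcont : Continuous (fun t => c / f (hw.sol t) ^ 2) :=
    hF.comp_continuous hw.sol_continuous (fun t => hw.sol_mem t)
  set α : ℝ → ℝ := fun t => ∫ s in (0 : ℝ)..t, c / f (hw.sol s) ^ 2 with hα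
  have hαd : ∀ t, HasDerivAt α (c / f (hw.sol t) ^ 2) t := fun t =>
    (hcont.integral_hasStrictDerivAt 0 t).hasDerivAt
  have hαs : ContDiff ℝ (⊤ : ℕ∞) α := by
    rw [contDiff_infty_iff_deriv]
    refine ⟨fun t => (hαd t).differentiableAt, ?_⟩
    have : deriv α = fun t => c / f (hw.sol t) ^ 2 := funext fun t => (hαd t).deriv
    rw [this]
    refine contDiff_const.div ((h.smooth.comp hw.sol_contDiff).pow 2) ?_
    intro t; exact pow_ne_zero 2 (h.fpos (hw.sol_mem t)).ne'
  have hTh : ∫ t in (0 : ℝ)..(per (pot f c) r1 r2), c / f (hw.sol t) ^ 2 = 2 * π := by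
    rw [← hΘ]
    exact hw.integral_period hF
  have hαT : ∀ t, α (t + per (pot f c) r1 r2) = α t + 2 * π := by
    intro t
    have hp : Function.Periodic (fun s => c / f (hw.sol s) ^ 2) (per (pot f c) r1 r2) := by
      intro s; simp only [hw.sol_periodic]
    have h2 := hp.intervalIntegral_add_eq t 0
    rw [zero_add, hTh] at h2
    rw [hα]
    simp only
    rw [← intervalIntegral.integral_add_adjacent_intervals (hcont.intervalIntegrable 0 t)
      (hcont.intervalIntegrable t _), h2]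
  refine ⟨hw.sol, circ α, per (pot f c) r1 r2, ?_, hw.per_pos, ?_, ?_⟩
  · refine geodesic_of_clairaut (v := hw.vel) (w := fun t => deriv (pot f c) (hw.sol t) / 2)
      (c := c) hw.sol_contDiff hαs (fun t => h.diff _) (fun t => (h.fpos (hw.sol_mem t)).ne')
      hw.sol_hasDerivAt hαd ?_ hw.vel_hasDerivAt ?_
    · intro t; rw [hw.vel_sq]; rfl
    · intro t
      rw [(pot_hasDerivAt (h.diff _) (h.fpos (hw.sol_mem t)).ne').deriv]
      ring
  · intro t
    exact ⟨hw.sol_periodic t, circ_add_two_pi (hαT t)⟩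
  · have h1 := hw.integral_period (F := fun _ => (1 : ℝ)) continuousOn_const
    rw [intervalIntegral.integral_const, sub_zero, smul_eq_mul, mul_one] at h1
    exact h1

end

end SGR
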