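import Pool.Agent.SGR.Geo

/-!
# Level sets of a profile without short parallels
-/

namespace SGR

open Set MeasureTheory Real Filter Topology

section
variable {L : ℝ} {f : ℝ → ℝ}

lemma SphereProfile.diff (h : SphereProfile L f) : Differentiable ℝ f :=
  h.smooth.differentiable (by simp)

lemma SphereProfile.cont (h : SphereProfile L f) : Continuous f := h.smooth.continuous

lemma SphereProfile.dcont (h : SphereProfile L f) : Continuous (deriv f) :=
  h.smooth.continuous_deriv (by simp)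

lemma SphereProfile.zero (h : SphereProfile L f) : f 0 = 0 := by
  have := h.odd 0
  rw [neg_zero] at this
  linarith

lemma SphereProfile.odd_L (h : SphereProfile L f) (x : ℝ) : f (L + x) = - f (L - x) := by
  have h1 := h.periodic (x - L)
  have h2 := h.odd (L - x)
  rw [show x - L + 2 * L = L + x by ring] at h1
  rw [show -(L - x) = x - L by ring] at h2
  rw [h1, h2]

lemma SphereProfile.at_L (h : SphereProfile L f) : f L = 0 := by
  have := h.odd_L 0
  rw [add_zero, sub_zero] at this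
  linarith

/-- The reversed profile. -/
lemma SphereProfile.reverse (h : SphereProfile L f) : SphereProfile L (fun x => f (L - x)) := by
  have hd : ∀ x, deriv (fun x => f (L - x)) x = - deriv f (L - x) := by
    intro x
    exact deriv_comp_const_sub f L x
  refine ⟨h.L_pos, ?_, ?_, ?_, ?_, ?_, ?_⟩
  · exact h.smooth.comp (contDiff_const.sub contDiff_id)
  · intro r
    simp only [sub_neg_eq_add]
    exact h.odd_L r
  · intro r
    have := h.periodic (L - r - 2 * L)
    rw [show L - r - 2 * L + 2 * L = L - r by ring] at this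
    rw [this]
    congr 1; ring
  · intro r h1 h2
    exact h.pos _ (by linarith) (by linarith)
  · rw [hd, sub_zero, h.deriv_L]; simp
  · rw [hd, sub_self, h.deriv_zero]

lemma SphereProfile.nonneg (h : SphereProfile L f) {x : ℝ} (hx : x ∈ Icc 0 L) : 0 ≤ f x := by
  rcases eq_or_lt_of_le hx.1 with h1 | h1
  · rw [← h1, h.zero]
  rcases eq_or_lt_of_le hx.2 with h2 | h2
  · rw [h2, h.at_L]
  · exact (h.pos x h1 h2).le

/-- The last point before `xM` at the level `c`. -/
lemma SphereProfile.left_point (h : SphereProfile L f) {c C xM : ℝ} (hc : 0 < c) (hcC : c ≤ C)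
    (hcrit : ∀ x ∈ Ioo 0 L, f x ≤ C → deriv f x ≠ 0) (hxM : xM ∈ Ioo 0 L) (hM : C < f xM) :
    ∃ r1, 0 < r1 ∧ r1 < xM ∧ f r1 = c ∧ (∀ x ∈ Ioc r1 xM, c < f x) ∧
      (∀ x ∈ Icc 0 r1, 0 < deriv f x) := by
  have hK : IsCompact {x | x ∈ Icc 0 xM ∧ f x ≤ c} := by
    apply IsCompact.of_isClosed_subset isCompact_Icc
    · exact isClosed_Icc.inter (isClosed_le h.cont continuous_const)
    · intro x hx; exact hx.1
  have hne : {x | x ∈ Icc 0 xM ∧ f x ≤ c}.Nonempty :=
    ⟨0, ⟨le_refl _, hxM.1.le⟩, by rw [h.zero]; exact hc.le⟩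
  obtain ⟨r1, ⟨hr1, hfr1⟩, hmax⟩ := hK.exists_isGreatest hne
  have hlt : r1 < xM := by
    rcases eq_or_lt_of_le hr1.2 with h1 | h1
    · rw [h1] at hfr1; linarith
    · exact h1
  have habove : ∀ x ∈ Ioc r1 xM, c < f x := by
    intro x hx
    by_contra hcon
    push Not at hcon
    have := hmax ⟨⟨hr1.1.trans hx.1.le, hx.2⟩, hcon⟩
    linarith [hx.1]
  have hge : c ≤ f r1 := by
    have h1 : Tendsto f (𝓝[>] r1) (𝓝 (f r1)) := h.cont.continuousAt.continuousWithinAt
    refine ge_of_tendsto h1 ?_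
    filter_upwards [Ioc_mem_nhdsGT hlt] with x hx
    exact (habove x hx).le
  have heq : f r1 = c := le_antisymm hfr1 hge
  have hr1pos : 0 < r1 := by
    rcases eq_or_lt_of_le hr1.1 with h1 | h1
    · rw [← h1, h.zero] at heq; linarith
    · exact h1
  have hr1L : r1 < L := hlt.trans hxM.2
  have hd0 : 0 ≤ deriv f r1 := by
    have h1 : Tendsto (slope f r1) (𝓝[>] r1) (𝓝 (deriv f r1)) := by
      have := (hasDerivAt_iff_tendsto_slope.1 (h.diff r1).hasDerivAt)
      exact this.mono_left (nhdsWithin_mono _ (fun x hx => ne_of_gt hx))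
    refine ge_of_tendsto h1 ?_
    filter_upwards [Ioc_mem_nhdsGT hlt] with x hx
    rw [slope_def_field, heq]
    exact div_nonneg (by linarith [habove x hx]) (by linarith [hx.1])
  have hdpos : 0 < deriv f r1 :=
    lt_of_le_of_ne hd0 (hcrit r1 ⟨hr1pos, hr1L⟩ (by rw [heq]; exact hcC)).symm
  have hbelow : ∀ x ∈ Ico 0 r1, f x < c := by
    intro y hy
    by_contra hcon
    push Not at hcon
    have hy0 : 0 < y := by
      rcases eq_or_lt_of_le hy.1 with h1 | h1
      · rw [← h1, h.zero] at hcon; linarith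
      · exact h1
    obtain ⟨z, hz, hfz⟩ : ∃ z ∈ Ioo y r1, f z < c := by
      have h1 : Tendsto (slope f r1) (𝓝[<] r1) (𝓝 (deriv f r1)) := by
        have := (hasDerivAt_iff_tendsto_slope.1 (h.diff r1).hasDerivAt)
        exact this.mono_left (nhdsWithin_mono _ (fun x hx => ne_of_lt hx))
      have h2 : ∀ᶠ x in 𝓝[<] r1, 0 < slope f r1 x := h1.eventually (lt_mem_nhds hdpos)
      have h3 : ∀ᶠ x in 𝓝[<] r1, x ∈ Ioo y r1 := Ioo_mem_nhdsLT hy.2
      obtain ⟨z, hz1, hz2⟩ := (h2.and h3).exists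
      refine ⟨z, hz2, ?_⟩
      rw [slope_def_field, heq] at hz1
      have h4 : z - r1 < 0 := by linarith [hz2.2]
      by_contra h5
      push Not at h5
      have := div_nonpos_of_nonneg_of_nonpos (by linarith : 0 ≤ f z - c) h4.le
      linarith
    obtain ⟨w, hw, hwmin⟩ := isCompact_Icc.exists_isMinOn (nonempty_Icc.2 hy.2.le)
      (h.cont.continuousOn (s := Icc y r1))
    have hfw : f w < c := lt_of_le_of_lt (hwmin ⟨hz.1.le, hz.2.le⟩) hfz
    have hw1 : y < w := by
      rcases eq_or_lt_of_le hw.1 with h1 | h1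
      · rw [← h1] at hfw; linarith
      · exact h1
    have hw2 : w < r1 := by
      rcases eq_or_lt_of_le hw.2 with h1 | h1
      · rw [h1] at hfw; linarith
      · exact h1
    have hloc : IsLocalMin f w := hwmin.isLocalMin (Icc_mem_nhds hw1 hw2)
    exact hcrit w ⟨hy0.trans hw1, hw2.trans hr1L⟩ (by linarith) hloc.deriv_eq_zero
  refine ⟨r1, hr1pos, hlt, heq, habove, ?_⟩
  intro x hx
  by_contra hcon
  push Not at hcon
  have hivt := intermediate_value_Icc hx.2 (h.dcont.continuousOn (s := Icc x r1))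
  obtain ⟨z, hz, hz0⟩ := hivt ⟨hcon, hdpos.le⟩
  have hz1 : z ≠ 0 := by
    rintro rfl
    rw [h.deriv_zero] at hz0; norm_num at hz0
  have hz2 : 0 < z := lt_of_le_of_ne (hx.1.trans hz.1) hz1.symm
  have hfz : f z ≤ c := by
    rcases eq_or_lt_of_le hz.2 with h1 | h1
    · rw [h1, heq]
    · exact (hbelow z ⟨hz2.le, h1⟩).le
  exact hcrit z ⟨hz2, lt_of_le_of_lt hz.2 hr1L⟩ (hfz.trans hcC) hz0

/-- Description of the superlevel set at the level `c`. -/
lemma SphereProfile.osc (h : SphereProfile L f) {c C xM : ℝ} (hc : 0 < c) (hcC : c ≤ C)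
    (hcrit : ∀ x ∈ Ioo 0 L, f x ≤ C → deriv f x ≠ 0) (hxM : xM ∈ Ioo 0 L) (hM : C < f xM) :
    ∃ r1 r2, 0 < r1 ∧ r2 < L ∧ Osc f c r1 r2 ∧
      (∀ x ∈ Icc 0 r1, 0 < deriv f x) ∧ (∀ x ∈ Icc r2 L, deriv f x < 0) := by
  obtain ⟨r1, h1, h2, h3, h4, h5⟩ := h.left_point hc hcC hcrit hxM hM
  have hd : ∀ x, deriv (fun x => f (L - x)) x = - deriv f (L - x) := by
    intro x
    exact deriv_comp_const_sub f L x
  obtain ⟨s1, k1, k2, k3, k4, k5⟩ := h.reverse.left_point (xM := L - xM) hc hcC (by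
      intro x hx hfx
      rw [hd]
      exact neg_ne_zero.2 (hcrit (L - x) ⟨by linarith [hx.2], by linarith [hx.1]⟩ hfx))
    ⟨by linarith [hxM.2], by linarith [hxM.1]⟩ (by simpa using hM)
  have hr : ∀ x ∈ Icc (L - s1) L, deriv f x < 0 := by
    intro x hx
    have := k5 (L - x) ⟨by linarith [hx.2], by linarith [hx.1]⟩
    rw [hd, show L - (L - x) = x by ring] at this
    linarith
  refine ⟨r1, L - s1, h1, by linarith, ⟨hc, by linarith, h.smooth, h3, k3, ?_, ?_, ?_⟩, h5, hr⟩
  · intro x hx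
    rcases le_total x xM with h6 | h6
    · exact h4 x ⟨hx.1, h6⟩
    · have := k4 (L - x) ⟨by linarith [hx.2], by linarith⟩
      simpa using this
  · exact h5 r1 ⟨h1.le, le_refl _⟩
  · exact hr _ ⟨le_refl _, by linarith⟩

/-- A positive lower bound of the slope near the first pole. -/
lemma SphereProfile.slope_left (h : SphereProfile L f) {c r1 : ℝ} (h0 : 0 < r1)
    (h1 : f r1 = c) (h2 : ∀ x ∈ Icc 0 r1, 0 < deriv f x) :
    ∃ δ > 0, ∀ x ∈ Icc 0 r1, f x ≤ c - δ * (r1 - x) := by
  obtain ⟨z, hz, hzmin⟩ := isCompact_Icc.exists_isMinOn (nonempty_Icc.2 h0.le)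
      (h.dcont.continuousOn (s := Icc 0 r1))
  refine ⟨deriv f z, h2 z hz, ?_⟩
  intro x hx
  have := (convex_Icc 0 r1).mul_sub_le_image_sub_of_le_deriv (f := f) h.cont.continuousOn
    h.diff.differentiableOn (C := deriv f z) (fun y hy => hzmin (interior_subset hy)) x hx r1
    ⟨h0.le, le_refl _⟩ hx.2
  rw [h1] at this
  linarith

lemma SphereProfile.slope_right (h : SphereProfile L f) {c r2 : ℝ} (h0 : r2 < L)
    (h1 : f r2 = c) (h2 : ∀ x ∈ Icc r2 L, deriv f x < 0) :
    ∃ δ > 0, ∀ x ∈ Icc r2 L, f x ≤ c - δ * (x - r2) := by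
  have hd : ∀ x, deriv (fun x => f (L - x)) x = - deriv f (L - x) := by
    intro x
    exact deriv_comp_const_sub f L x
  obtain ⟨δ, hδ, hb⟩ := h.reverse.slope_left (c := c) (r1 := L - r2) (by linarith)
    (by simpa using h1) (by
      intro x hx
      rw [hd]
      have := h2 (L - x) ⟨by linarith [hx.2], by linarith [hx.1]⟩
      linarith)
  refine ⟨δ, hδ, fun x hx => ?_⟩
  have := hb (L - x) ⟨by linarith [hx.2], by linarith [hx.1]⟩
  rw [show L - (L - x) = x by ring] at this
  linarith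

end

end SGR
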