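import Pool.Agent.SGR.Width

/-!
# The volume bounds the moments of the width function
-/

namespace SGR

open Set MeasureTheory Real Filter Topology

lemma inner_integral {F C : ℝ} (hF : 0 < F) (hC : 0 < C) :
    ∫ c in (0 : ℝ)..C, c * (√(F ^ 2 - c ^ 2) / F) ≤ F ^ 2 / 3 := by
  have hA : ∫ c in (0 : ℝ)..C, c * (√(F ^ 2 - c ^ 2) / F)
      = (fun c => -(√(F ^ 2 - c ^ 2)) ^ 3 / (3 * F)) C
        - (fun c => -(√(F ^ 2 - c ^ 2)) ^ 3 / (3 * F)) 0 := by
    refine integral_eq_of_hasDerivAt_off_countable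
      (fun c => -(√(F ^ 2 - c ^ 2)) ^ 3 / (3 * F)) (fun c => c * (√(F ^ 2 - c ^ 2) / F))
      (s := {F}) (countable_singleton F) ?_ ?_ ?_
    · exact Continuous.continuousOn (by fun_prop)
    · intro c hc
      rw [min_eq_left hC.le, max_eq_right hC.le] at hc
      have hcF : c ≠ F := fun h => hc.2 (by simp [h])
      have hc0 : 0 < c := hc.1.1
      rcases lt_or_gt_of_ne hcF with h | h
      · have hpos : 0 < F ^ 2 - c ^ 2 := by nlinarith
        have h1 : HasDerivAt (fun c : ℝ => F ^ 2 - c ^ 2) (-(2 * c)) c := by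
          have := ((hasDerivAt_id c).pow 2).const_sub (F ^ 2)
          refine this.congr_deriv ?_
          simp
        have h2 := ((h1.sqrt hpos.ne').pow 3).neg.div_const (3 * F)
        refine h2.congr_deriv ?_
        have h3 : 0 < √(F ^ 2 - c ^ 2) := Real.sqrt_pos.2 hpos
        simp only [Nat.cast_ofNat]
        field_simp
      · have hev : (fun c => -(√(F ^ 2 - c ^ 2)) ^ 3 / (3 * F)) =ᶠ[𝓝 c] fun _ => 0 := by
          filter_upwards [lt_mem_nhds h] with y hy
          rw [Real.sqrt_eq_zero_of_nonpos (by nlinarith)]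
          simp
        have h1 : √(F ^ 2 - c ^ 2) = 0 := Real.sqrt_eq_zero_of_nonpos (by nlinarith)
        rw [h1, zero_div, mul_zero]
        exact (hasDerivAt_const c 0).congr_of_eventuallyEq hev
    · exact Continuous.intervalIntegrable (by fun_prop) _ _
  rw [hA]
  simp only
  rw [zero_pow two_ne_zero, sub_zero, Real.sqrt_sq hF.le]
  have h1 : 0 ≤ √(F ^ 2 - C ^ 2) ^ 3 / (3 * F) := by positivity
  have h2 : -√(F ^ 2 - C ^ 2) ^ 3 / (3 * F) - -F ^ 3 / (3 * F)
      = F ^ 2 / 3 - √(F ^ 2 - C ^ 2) ^ 3 / (3 * F) := by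
    field_simp; ring
  rw [h2]; linarith

section
variable {L : ℝ} {f : ℝ → ℝ}

lemma SphereProfile.moment_le (h : SphereProfile L f) {C : ℝ} (hC : 0 < C) :
    ∫ c in (0 : ℝ)..C, c * wid f L c ≤ (∫ x in (0 : ℝ)..L, f x ^ 2) / 3 := by
  have hmeas : Measurable (fun p : ℝ × ℝ => p.1 * phi f p.1 p.2) := by
    unfold phi
    have hm := h.cont.measurable
    exact measurable_fst.mul ((((hm.comp measurable_snd).pow_const 2).sub
      (measurable_fst.pow_const 2)).sqrt.div (hm.comp measurable_snd))
  have hint : Integrable (Function.uncurry fun c x => c * phi f c x)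
      ((volume.restrict (Ioc 0 C)).prod (volume.restrict (Ioo 0 L))) := by
    have h1 : Integrable (fun _ : ℝ × ℝ => C)
        ((volume.restrict (Ioc 0 C)).prod (volume.restrict (Ioo 0 L))) :=
      integrable_const C
    refine Integrable.mono' h1 hmeas.aestronglyMeasurable ?_
    rw [Measure.prod_restrict]
    filter_upwards [ae_restrict_mem (measurableSet_Ioc.prod measurableSet_Ioo)] with p hp
    have h0 := h.nonneg ⟨hp.2.1.le, hp.2.2.le⟩
    simp only [Function.uncurry]
    rw [Real.norm_of_nonneg (mul_nonneg hp.1.1.le (phi_nonneg h0))]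
    calc p.1 * phi f p.1 p.2 ≤ C * 1 :=
          mul_le_mul hp.1.2 (phi_le_one h0) (phi_nonneg h0) hC.le
      _ = C := mul_one C
  have hswap := integral_integral_swap hint
  have e1 : ∫ c in (0 : ℝ)..C, c * wid f L c
      = ∫ c in Ioc 0 C, ∫ x in Ioo 0 L, c * phi f c x := by
    rw [intervalIntegral.integral_of_le hC.le]
    refine setIntegral_congr_fun measurableSet_Ioc (fun c _ => ?_)
    unfold wid
    rw [integral_const_mul]
  rw [e1, hswap]
  have e2 : (∫ x in (0 : ℝ)..L, f x ^ 2) / 3 = ∫ x in Ioo 0 L, f x ^ 2 / 3 := by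
    rw [intervalIntegral.integral_of_le h.L_pos.le, integral_Ioc_eq_integral_Ioo, integral_div]
  rw [e2]
  refine setIntegral_mono_on ?_ ?_ measurableSet_Ioo ?_
  · exact hint.integral_prod_right
  · have : Continuous (fun x => f x ^ 2 / 3) := (h.cont.pow 2).div_const 3
    exact (this.continuousOn.integrableOn_Icc (a := 0) (b := L)).mono_set Ioo_subset_Icc_self
  · intro x hx
    rw [← intervalIntegral.integral_of_le hC.le]
    exact inner_integral (h.pos x hx.1 hx.2) hC

end

end SGR
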